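import Pool.Agent.Lib_helper99.NK.C
import Pool.Agent.Lib_helper87.NJ.N5

/-!
# The independence for the curves with a non integral invariant and a large Galois image
-/

set_option autoImplicit false
set_option linter.unusedSectionVars false

namespace Pool.Agent.NK

open WeierstrassCurve.Affine

/-- **the independence of the numbers `γ`**, if the invariant is not integral at a place whose
residue characteristic is not `p`, and the automorphisms of the field which fix the curve act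
transitively on the points of order `p` -/
theorem siegel_gal {k : Type*} [Field k] [DecidableEq k] [CharZero k]
    {W : WeierstrassCurve.Affine k} (H : AddSubgroup W.Point) [Fintype H]
    (hp : (Fintype.card H).Prime) (h5 : 5 ≤ Fintype.card H)
    (hO : ∃ O : ValuationSubring k, ((Fintype.card H : k))⁻¹ ∈ O ∧ W.c₄ ^ 3 / W.Δ ∉ O)
    (hQ : ∃ P : W.Point, Fintype.card H • P = 0 ∧ P ∉ H)
    (hG : ∀ (x y x' y' : k) (h : W.Nonsingular x y) (h' : W.Nonsingular x' y'),
      Fintype.card H • Point.some x y h = 0 → Fintype.card H • Point.some x' y' h' = 0 →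
        ∃ s : k ≃+* k, s W.a₁ = W.a₁ ∧ s W.a₂ = W.a₂ ∧ s W.a₃ = W.a₃ ∧ s W.a₄ = W.a₄ ∧
          s W.a₆ = W.a₆ ∧ s x = x' ∧ s y = y') :
    FK4.SiegelIndep H := by
  obtain ⟨p, hc⟩ : ∃ p, p = Fintype.card H := ⟨_, rfl⟩
  rw [← hc] at hp h5 hO hQ hG
  have hne : NeZero p := ⟨hp.ne_zero⟩
  obtain ⟨O₀, h6, hj⟩ := hO
  obtain ⟨Q, hpQ, hQH⟩ := hQ
  have hcN : Nat.card H = p := by rw [Nat.card_eq_fintype_card, hc]
  have hcy : IsAddCyclic H := by
    have hpf : Fact p.Prime := ⟨hp⟩
    exact isAddCyclic_of_prime_card hcN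
  obtain ⟨e⟩ : Nonempty (ZMod p ≃+ H) := by
    rw [← hcN]
    exact ⟨zmodAddCyclicAddEquiv hcy⟩
  have hpf : Fact p.Prime := ⟨hp⟩
  obtain ⟨P, hP⟩ : ∃ P : W.Point, P = ((e 1 : H) : W.Point) := ⟨_, rfl⟩
  have hP0 : P ≠ 0 := by rw [hP]; exact TJG.e_ne e one_ne_zero
  have hpP : p • P = 0 := by
    have h1 : p • (1 : ZMod p) = 0 := by simp
    have h2 : ((e (p • (1 : ZMod p)) : H) : W.Point) = 0 := by
      rw [h1, map_zero]
      rfl
    rw [map_nsmul] at h2
    rw [hP]
    exact h2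
  have hQ' : Q ∉ AddSubgroup.zmultiples P := by
    intro h
    apply hQH
    have h1 : AddSubgroup.zmultiples P ≤ H := by
      rw [AddSubgroup.zmultiples_le, hP]
      exact (e 1).2
    exact h1 h
  intro m me m0 ms mp
  have s1 : ∑ c : ZMod p, m (e c) = 0 := by
    rw [← ms]
    exact Equiv.sum_comp e.toEquiv m
  have s0 : m (e 0) = 0 := by rw [map_zero, m0]
  have s2 : ∀ c : ZMod p, m (e (-c)) = m (e c) := by
    intro c
    rw [map_neg, me]
  have s3 : ∏ c : ZMod p, FK4.gam H ((e c : H) : W.Point) ^ m (e c) = 1 := by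
    rw [← mp]
    exact Equiv.prod_comp e.toEquiv (fun a : H => FK4.gam H (a : W.Point) ^ m a)
  have hn : ∀ c : ZMod p, m (e c) = 0 := by
    refine core hp h5 O₀ h6 hj (n := fun c => m (e c)) s2 s0 s1 P Q hP0 hpP hpQ hQ' ?_
    intro R hR0 hpR
    rcases P with _ | ⟨x, y, h⟩
    · exact absurd rfl hP0
    rcases R with _ | ⟨x', y', h'⟩
    · exact absurd rfl hR0
    obtain ⟨s, a1, a2, a3, a4, a6, hx, hy⟩ := hG x y x' y' h h' hpP hpR
    obtain ⟨H', hH', e', he', hg⟩ := NJ.transport H e s a1 a2 a3 a4 a6 hP.symm (h' := h') hx hy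
    refine ⟨H', hH', e', he', ?_⟩
    rw [← map_one s, ← s3, map_prod]
    refine Finset.prod_congr rfl fun c _ => ?_
    rw [hg, map_zpow₀]
  intro a
  have := hn (e.symm a)
  rwa [AddEquiv.apply_symm_apply] at this

end Pool.Agent.NK
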