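import Pool.Agent.Lib_helper24.TJ.Tor

/-!
# The abscissae of the multiples of a point of prime order on `(2y + x)² = 4x³ + x² + 4b`
-/

set_option autoImplicit false
set_option linter.unusedSectionVars false

namespace Pool.Agent.NK

open Pool.Agent.TJ (ff Tor gax)

/-- the cubic -/
def fz {K : Type*} [Field K] (b x : K) : K := 4 * x ^ 3 + x ^ 2 + 4 * b

/-- `x c` is the abscissa of `c • P`, `c ≠ 0`, on `(2y + x)² = 4x³ + x² + 4b` -/
structure Tz {K : Type*} [Field K] (p : ℕ) (b : K) (x : ZMod p → K) : Prop where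
  even : ∀ c, x (-c) = x c
  ne0 : ∀ c, c ≠ 0 → fz b (x c) ≠ 0
  dbl : ∀ c, c ≠ 0 → x (2 * c) * fz b (x c) = x c ^ 4 - 8 * b * x c - b
  ne : ∀ a c, a ≠ 0 → c ≠ 0 → a ≠ c → a ≠ -c → x a ≠ x c
  sum : ∀ a c, a ≠ 0 → c ≠ 0 → a ≠ c → a ≠ -c →
    (x (a + c) + x (a - c)) * (x a - x c) ^ 2 = x a * x c * (1 + 2 * x a + 2 * x c) + 4 * b
  prod : ∀ a c, a ≠ 0 → c ≠ 0 → a ≠ c → a ≠ -c →
    x (a + c) * x (a - c) * (x a - x c) ^ 2 = (x a * x c) ^ 2 - 4 * b * (x a + x c) - b

/-- the number `γ(c)` -/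
noncomputable def gz {K : Type*} [Field K] {p : ℕ} [NeZero p] (b : K) (x : ZMod p → K)
    (c : ZMod p) : K :=
  fz b (x c) * ∏ a : ZMod p, if a = 0 ∨ a = c ∨ a = -c then 1 else x c - x a

variable {K : Type*} [Field K] [CharZero K] {p : ℕ} {B : K} {x : ZMod p → K}

lemma ff_eq (B x : K) : ff 1 B x = 16 * fz (B / 64) (x / 4) := by
  unfold ff fz
  field_simp
  ring

/-- the change of variable -/
theorem tz_of (t : Tor p 1 B x) : Tz p (B / 64) (fun c => x c / 4) := by
  refine ⟨?_, ?_, ?_, ?_, ?_, ?_⟩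
  · intro c
    show x (-c) / 4 = x c / 4
    rw [t.even]
  · intro c hc h
    apply t.ne0 c hc
    rw [ff_eq]
    show 16 * fz (B / 64) (x c / 4) = 0
    rw [h, mul_zero]
  · intro c hc
    have h := t.dbl c hc
    rw [ff_eq] at h
    show x (2 * c) / 4 * fz (B / 64) (x c / 4) = (x c / 4) ^ 4 - 8 * (B / 64) * (x c / 4) - B / 64
    linear_combination h / 256
  · intro a c ha hc h1 h2 h
    apply t.ne a c ha hc h1 h2
    have h' : x a / 4 = x c / 4 := h
    field_simp at h'
    exact h'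
  · intro a c ha hc h1 h2
    have h := t.sum a c ha hc h1 h2
    show (x (a + c) / 4 + x (a - c) / 4) * (x a / 4 - x c / 4) ^ 2 =
      x a / 4 * (x c / 4) * (1 + 2 * (x a / 4) + 2 * (x c / 4)) + 4 * (B / 64)
    linear_combination h / 64
  · intro a c ha hc h1 h2
    have h := t.prod a c ha hc h1 h2
    show x (a + c) / 4 * (x (a - c) / 4) * (x a / 4 - x c / 4) ^ 2 =
      (x a / 4 * (x c / 4)) ^ 2 - 4 * (B / 64) * (x a / 4 + x c / 4) - B / 64
    linear_combination h / 256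

lemma card_three [NeZero p] {c : ZMod p} (hc : c ≠ 0) (hcn : c ≠ -c) (A : K) :
    (∏ a : ZMod p, if a = 0 ∨ a = c ∨ a = -c then (1 : K) else A) * A ^ 3 = A ^ p := by
  have hn0 : (-c) ≠ 0 := neg_ne_zero.mpr hc
  rw [Finset.prod_ite, Finset.prod_const_one, one_mul, Finset.prod_const, ← pow_add]
  congr 1
  have h1 : (Finset.univ.filter fun a : ZMod p => a = 0 ∨ a = c ∨ a = -c) = {0, c, -c} := by
    ext a; simp
  have h2 : ({0, c, -c} : Finset (ZMod p)).card = 3 := by
    rw [Finset.card_insert_of_notMem, Finset.card_insert_of_notMem, Finset.card_singleton]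
    · simpa using hcn
    · simp only [Finset.mem_insert, Finset.mem_singleton, not_or]
      exact ⟨fun h => hc h.symm, fun h => hn0 h.symm⟩
  have h3 := Finset.card_filter_add_card_filter_not (s := (Finset.univ : Finset (ZMod p)))
    (fun a => a = 0 ∨ a = c ∨ a = -c)
  rw [h1, h2, Finset.card_univ, ZMod.card] at h3
  omega

/-- the change of variable for the numbers `γ` -/
theorem gax_eq [NeZero p] {c : ZMod p} (hc : c ≠ 0) (hcn : c ≠ -c) :
    gax 1 B x c = 4 ^ p * gz (B / 64) (fun c => x c / 4) c := by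
  unfold gax gz
  rw [ff_eq, ← card_three hc hcn]
  have h : ∀ a : ZMod p, (if a = 0 ∨ a = c ∨ a = -c then (1 : K) else x c - x a) =
      (if a = 0 ∨ a = c ∨ a = -c then (1 : K) else 4) *
        if a = 0 ∨ a = c ∨ a = -c then (1 : K) else x c / 4 - x a / 4 := by
    intro a
    split_ifs
    · rw [one_mul]
    · ring
  rw [Finset.prod_congr rfl fun a _ => h a, Finset.prod_mul_distrib]
  ring

end Pool.Agent.NK
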