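import Pool.Agent.Lib_helper99.NK.I
import Pool.Agent.Lib_helper99.TJG.C

/-!
# The place
-/

set_option autoImplicit false
set_option linter.unusedSectionVars false

namespace Pool.Agent.NK

open WeierstrassCurve.Affine
open Pool.Agent.TJG

variable {k : Type*} [Field k] [CharZero k] {W : WeierstrassCurve.Affine k}
  {K : Type*} [Field K] [CharZero K] [Algebra k K]

/-- the other root of the derivative -/
lemma dat_flip {r A B : K} (D : Dat W r A B) :
    Dat W (r - 2 / 3 * A) (-A) (-(B + 4 / 27)) := by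
  have h1 := D.h1
  have h2 := D.h2
  have h3 := D.h3
  refine ⟨neg_ne_zero.mpr D.ne, ?_, ?_, ?_⟩
  · linear_combination h1
  · linear_combination h2 + (2 / 3 * A) * h1
  · linear_combination h3 - (4 / 3 * A) * h2 - (4 / 9 * A ^ 2) * h1

/-- extension of a valuation ring -/
lemma exists_ext (O₀ : ValuationSubring k) (j : k) (hj : j ∉ O₀) :
    ∃ O : ValuationSubring K, (∀ a ∈ O₀, algebraMap k K a ∈ O) ∧
      1 < O.valuation (algebraMap k K j) := by
  have hj0 : j ≠ 0 := by
    rintro rfl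
    exact hj O₀.zero_mem
  have hji : j⁻¹ ∈ O₀ := (O₀.mem_or_inv_mem j).resolve_left hj
  have htm : algebraMap k K j⁻¹ ∈ O₀.toSubring.map (algebraMap k K) := ⟨j⁻¹, hji, rfl⟩
  have hI : (Ideal.span {(⟨algebraMap k K j⁻¹, htm⟩ : O₀.toSubring.map (algebraMap k K))} :
      Ideal _) ≠ ⊤ := by
    intro h
    rw [Ideal.eq_top_iff_one, Ideal.mem_span_singleton'] at h
    obtain ⟨⟨a, b, hb, hab⟩, h1⟩ := h
    have h2 : a * algebraMap k K j⁻¹ = 1 := congrArg Subtype.val h1
    have h3 : algebraMap k K (b * j⁻¹) = 1 := by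
      rw [map_mul]
      have : algebraMap k K b = a := hab
      rw [this]
      exact h2
    have h4 : b * j⁻¹ = 1 := by
      apply (algebraMap k K).injective
      rw [h3, map_one]
    have h5 : b = j := by
      field_simp at h4
      exact h4
    exact hj (h5 ▸ hb)
  obtain ⟨O, hO, hO2⟩ := Ideal.image_subset_nonunits_valuationSubring _ hI
  refine ⟨O, fun a ha => hO ⟨a, ha, rfl⟩, ?_⟩
  have h1 : O.valuation (algebraMap k K j⁻¹) < 1 := by
    rw [← ValuationSubring.mem_nonunits_iff]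
    apply hO2
    exact ⟨⟨algebraMap k K j⁻¹, htm⟩, Ideal.subset_span rfl, rfl⟩
  rw [map_inv₀, map_inv₀] at h1
  have h0 : O.valuation (algebraMap k K j) ≠ 0 :=
    (Valuation.ne_zero_iff _).mpr ((map_ne_zero _).mpr hj0)
  by_contra hn
  rw [not_lt] at hn
  exact absurd ((one_le_inv₀ (zero_lt_iff.mpr h0)).mpr hn) (not_le.mpr h1)

/-- an integer which is a unit of the ring -/
lemma unit_of {O₀ : ValuationSubring k} {O : ValuationSubring K}
    (hO : ∀ a ∈ O₀, algebraMap k K a ∈ O) {n : ℕ} (hn : n ≠ 0)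
    (h : (n : k)⁻¹ ∈ O₀) : O.valuation (n : K) = 1 := by
  have hn' : (n : K) ≠ 0 := by exact_mod_cast hn
  have h2 := hO _ h
  rw [map_inv₀, map_natCast] at h2
  have h3 : O.valuation ((n : K)⁻¹) ≤ 1 := (O.valuation_le_one_iff _).mpr h2
  apply le_antisymm (v_nat O.valuation n)
  rw [map_inv₀] at h3
  exact (inv_le_one₀ (zero_lt_iff.mpr ((Valuation.ne_zero_iff _).mpr hn'))).mp h3

/-- **the place**: the curve has multiplicative reduction there -/
theorem exists_place [IsAlgClosed K] {p : ℕ} (hp : p ≠ 0) (O₀ : ValuationSubring k)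
    (h6 : (p : k)⁻¹ ∈ O₀) (hj : W.c₄ ^ 3 / W.Δ ∉ O₀) :
    ∃ (O : ValuationSubring K) (r A B : K), Dat W r A B ∧
      O.valuation (p : K) = 1 ∧ B ≠ 0 ∧ O.valuation (B / 64) < 1 := by
  obtain ⟨O, hO, hOj⟩ := exists_ext (K := K) O₀ _ hj
  have vp : O.valuation (p : K) = 1 := unit_of hO hp h6
  have hc : W.c₄ ≠ 0 := by
    intro h
    apply hj
    rw [h, zero_pow (by norm_num), zero_div]
    exact O₀.zero_mem
  obtain ⟨r, A, B, D⟩ := exists_dat W K hc
  obtain ⟨b, hb⟩ : ∃ b : K, b = B / 64 := ⟨_, rfl⟩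
  have hBb : B = 64 * b := by rw [hb]; ring
  have ej : (-256 : K) * (B * (4 + 27 * B))⁻¹ = -(b * (1 + 432 * b))⁻¹ := by
    rw [hBb, show (64 * b * (4 + 27 * (64 * b)) : K) = 256 * (b * (1 + 432 * b)) by ring,
      mul_inv]
    have : (256 : K) ≠ 0 := by norm_num
    field_simp
  rw [j_eq D, ej, Valuation.map_neg, map_inv₀] at hOj
  have hu0 : b * (1 + 432 * b) ≠ 0 := by
    intro h
    rw [h, map_zero, inv_zero] at hOj
    exact absurd hOj (not_lt.mpr zero_le)
  have hu : O.valuation (b * (1 + 432 * b)) < 1 := by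
    by_contra hn
    rw [not_lt] at hn
    exact absurd hOj (not_lt.mpr (inv_le_one_of_one_le₀ hn))
  obtain ⟨hb0, hb1⟩ := mul_ne_zero_iff.mp hu0
  rcases lt_or_ge (O.valuation b) 1 with h | h
  · refine ⟨O, r, A, B, D, vp, ?_, ?_⟩
    · rw [hBb]
      exact mul_ne_zero (by norm_num) hb0
    · rw [← hb]
      exact h
  · refine ⟨O, r - 2 / 3 * A, -A, -(B + 4 / 27), dat_flip D, vp, ?_, ?_⟩
    · intro h'
      apply hb1
      linear_combination -(27 / 4) * h' - (27 / 4) * hBb
    · have h1 : O.valuation (1 + 432 * b) < 1 := by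
        rw [map_mul] at hu
        by_contra hn
        rw [not_lt] at hn
        exact absurd hu (not_lt.mpr (one_le_mul h hn))
      have h2 : O.valuation (432 * b) = 1 := by
        have e : (432 * b : K) = (1 + 432 * b) - 1 := by ring
        rw [e, Valuation.map_sub_eq_of_lt_right, map_one]
        rwa [map_one]
      have e : (-(B + 4 / 27)) / 64 = -((b * (1 + 432 * b)) / (432 * b)) := by
        rw [hBb]
        field_simp
        ring
      rw [e, Valuation.map_neg, map_div₀, h2, div_one]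
      exact hu

end Pool.Agent.NK
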