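import Pool.Agent.Lib_helper99.NK.W

/-!
# What a relation says in the second type
-/

set_option autoImplicit false
set_option linter.unusedSectionVars false

namespace Pool.Agent.NK

variable {K : Type*} [Field K] {G : Type*} [LinearOrderedCommGroupWithZero G] {v : Valuation K G}
  {p : ℕ} {B : K} {x : ZMod p → K}

lemma prod_zpow_sum {ι : Type*} (s : Finset ι) {b : G} (hb : b ≠ 0) (f : ι → ℤ) :
    ∏ i ∈ s, b ^ f i = b ^ ∑ i ∈ s, f i := by
  classical
  induction s using Finset.induction_on with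
  | empty => simp
  | insert a s ha ih => rw [Finset.prod_insert ha, Finset.sum_insert ha, zpow_add₀ hb, ih]

lemma zpow_one_imp {b : G} (hb : b < 1) {m : ℤ} (h : b ^ m = 1) : m = 0 := by
  have key : ∀ n : ℕ, b ^ n = 1 → n = 0 := by
    intro n hn
    by_contra h0
    exact absurd hn (ne_of_lt (pow_lt_one₀ zero_le hb h0))
  rcases m with n | n
  · have := key n (by simpa using h)
    simp [this]
  · exfalso
    rw [zpow_negSucc, inv_eq_one] at h
    exact absurd (key _ h) (by omega)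

/-- **the valuation of a relation** -/
theorem rel_val [NeZero p] (hp : p.Prime) (h5 : 5 ≤ p) (t : Tz p B x)
    (hB0 : B ≠ 0) (hB : v B < 1) (hx : ∀ c, c ≠ 0 → v (x c) < 1) {a : ZMod p} (ha : a ≠ 0)
    (hlin : ∀ n : ℕ, 1 ≤ n → 2 * n < p → v (x ((n : ZMod p) * a)) = v (x a) ^ n)
    {n : ZMod p → ℤ} (n0 : n 0 = 0) (h : ∏ c, gz B x c ^ n c = 1) :
    ∑ s : ZMod p, n (s * a) * ((s.val * (p - s.val) : ℕ) : ℤ) = 0 := by
  have hpf := Fact.mk hp
  have hb0 : v (x a) ≠ 0 := (t2x0 hp h5 t hB0 hB hx ha).ne'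
  have h1 := congrArg v h
  rw [map_one, map_prod, ← Equiv.prod_comp (Equiv.mulRight₀ a ha)] at h1
  have h2 : ∀ s : ZMod p, v (gz B x ((Equiv.mulRight₀ a ha) s) ^ n ((Equiv.mulRight₀ a ha) s)) =
      v (x a) ^ (n (s * a) * ((s.val * (p - s.val) : ℕ) : ℤ)) := by
    intro s
    show v (gz B x (s * a) ^ n (s * a)) = _
    by_cases hs : s = 0
    · rw [hs, zero_mul, n0, zpow_zero, map_one, zero_mul, zpow_zero]
    · rw [map_zpow₀, val_gz hp h5 t hB0 hB hx ha hlin hs, mul_comm (n (s * a)), zpow_mul,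
        zpow_natCast]
  rw [Finset.prod_congr rfl fun s _ => h2 s, prod_zpow_sum _ hb0] at h1
  exact zpow_one_imp (hx a ha) h1

/-- the multiples of another generator -/
lemma tor_mul (hp : p.Prime) (t : Tz p B x) {u : ZMod p} (hu : u ≠ 0) :
    Tz p B (fun c => x (u * c)) := by
  have hpf := Fact.mk hp
  refine ⟨?_, ?_, ?_, ?_, ?_, ?_⟩
  · intro c
    show x (u * -c) = x (u * c)
    rw [mul_neg, t.even]
  · intro c hc
    exact t.ne0 _ (mul_ne_zero hu hc)
  · intro c hc
    have := t.dbl _ (mul_ne_zero hu hc)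
    show x (u * (2 * c)) * _ = _
    rw [show u * (2 * c) = 2 * (u * c) by ring]
    exact this
  · intro b c hb hc h1 h2
    refine t.ne _ _ (mul_ne_zero hu hb) (mul_ne_zero hu hc) ?_ ?_
    · exact fun h => h1 (mul_left_cancel₀ hu h)
    · exact fun h => h2 (mul_left_cancel₀ hu (by rw [h, mul_neg]))
  · intro b c hb hc h1 h2
    have := t.sum _ _ (mul_ne_zero hu hb) (mul_ne_zero hu hc)
      (fun h => h1 (mul_left_cancel₀ hu h)) (fun h => h2 (mul_left_cancel₀ hu (by rw [h, mul_neg])))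
    show (x (u * (b + c)) + x (u * (b - c))) * _ = _
    rw [mul_add, mul_sub]
    exact this
  · intro b c hb hc h1 h2
    have := t.prod _ _ (mul_ne_zero hu hb) (mul_ne_zero hu hc)
      (fun h => h1 (mul_left_cancel₀ hu h)) (fun h => h2 (mul_left_cancel₀ hu (by rw [h, mul_neg])))
    show x (u * (b + c)) * x (u * (b - c)) * _ = _
    rw [mul_add, mul_sub]
    exact this

/-- the numbers `γ` for another generator -/
lemma gz_mul [NeZero p] (hp : p.Prime) {u : ZMod p} (hu : u ≠ 0) (c : ZMod p) :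
    gz B (fun c => x (u * c)) c = gz B x (u * c) := by
  have hpf := Fact.mk hp
  unfold gz
  rw [← Equiv.prod_comp (Equiv.mulLeft₀ u hu) (fun b => if b = 0 ∨ b = u * c ∨ b = -(u * c) then 1
    else x (u * c) - x b)]
  congr 1
  refine Finset.prod_congr rfl fun b _ => ?_
  show _ = if u * b = 0 ∨ u * b = u * c ∨ u * b = -(u * c) then (1 : K) else x (u * c) - x (u * b)
  have i1 : u * b = 0 ↔ b = 0 := by simp [hu]
  have i2 : u * b = u * c ↔ b = c := mul_right_inj' hu
  have i3 : u * b = -(u * c) ↔ b = -c := by rw [← mul_neg]; exact mul_right_inj' hu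
  by_cases h : b = 0 ∨ b = c ∨ b = -c
  · rw [if_pos h, if_pos (h.imp i1.mpr (Or.imp i2.mpr i3.mpr))]
  · rw [if_neg h, if_neg (fun h' => h (h'.imp i1.mp (Or.imp i2.mp i3.mp)))]

/-- **all the valuations**: a relation which holds for every generator -/
theorem rel_all [NeZero p] (hp : p.Prime) (h5 : 5 ≤ p) (t : Tz p B x)
    (hB0 : B ≠ 0) (hB : v B < 1) (hx : ∀ c, c ≠ 0 → v (x c) < 1)
    {n : ZMod p → ℤ} (n0 : n 0 = 0)
    (h : ∀ u : ZMod p, u ≠ 0 → ∏ c, gz B x (u * c) ^ n c = 1) (s : ZMod p) :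
    ∑ c, n c * (((s * c).val * (p - (s * c).val) : ℕ) : ℤ) = 0 := by
  have hpf := Fact.mk hp
  by_cases hs : s = 0
  · simp [hs]
  obtain ⟨a, ha, -, hlin⟩ := linear hp h5 t hB0 hB hx
  -- the generator
  have hu : s * a ≠ 0 := mul_ne_zero hs ha
  -- the relation at `u`
  have hr := h _ hu
  -- reindex: `c` goes to `(s a) c`
  have h1 : ∏ c, gz B x c ^ (n ((s * a)⁻¹ * c)) = 1 := by
    rw [← Equiv.prod_comp (Equiv.mulLeft₀ _ hu)]
    refine Eq.trans (Finset.prod_congr rfl fun c _ => ?_) hr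
    show gz B x (s * a * c) ^ (n ((s * a)⁻¹ * (s * a * c))) = _
    rw [inv_mul_cancel_left₀ hu]
  have h2 := rel_val (n := fun c => n ((s * a)⁻¹ * c)) hp h5 t hB0 hB hx ha hlin
    (by rw [mul_zero, n0]) h1
  rw [← h2, ← Equiv.sum_comp (Equiv.mulLeft₀ s hs) (fun r : ZMod p =>
    n ((s * a)⁻¹ * (r * a)) * ((r.val * (p - r.val) : ℕ) : ℤ))]
  refine Finset.sum_congr rfl fun c _ => ?_
  show n c * (((s * c).val * (p - (s * c).val) : ℕ) : ℤ) =
    n ((s * a)⁻¹ * (s * c * a)) * (((s * c).val * (p - (s * c).val) : ℕ) : ℤ)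
  have e : (s * a)⁻¹ * (s * c * a) = c := by
    field_simp
  rw [e]

end Pool.Agent.NK
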