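import Pool.Agent.Lib_helper99.NK.Q
import Pool.Agent.Lib_helper99.NK.R
import Pool.Agent.Lib_helper99.NK.O
import Pool.Agent.Lib_helper87.TJN.N1

/-!
# The core of the argument
-/

set_option autoImplicit false
set_option linter.unusedSectionVars false

namespace Pool.Agent.NK

open WeierstrassCurve.Affine
open Pool.Agent.TJ (ff Tor gax)
open Pool.Agent.TJG

variable {k : Type*} [Field k] [DecidableEq k] [CharZero k] {W : WeierstrassCurve.Affine k}
  {K : Type*} [Field K] [CharZero K] [Algebra k K]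

lemma prod_factor {K : Type*} [Field K] {p : ℕ} [NeZero p] {f g : ZMod p → K} {s : K} (hs : s ≠ 0)
    (h : ∀ c, c ≠ 0 → f c = s * g c) {n : ZMod p → ℤ} (n0 : n 0 = 0) (ns : ∑ c, n c = 0) :
    ∏ c, f c ^ n c = ∏ c, g c ^ n c := by
  have h1 : ∀ c, f c ^ n c = s ^ n c * g c ^ n c := by
    intro c
    by_cases hc : c = 0
    · rw [hc, n0, zpow_zero, zpow_zero, zpow_zero, one_mul]
    · rw [h c hc, mul_zpow]
  rw [Finset.prod_congr rfl fun c _ => h1 c, Finset.prod_mul_distrib]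
  have h2 : ∏ c, s ^ n c = s ^ (∑ c, n c) := by
    induction (Finset.univ : Finset (ZMod p)) using Finset.cons_induction with
    | empty => simp
    | cons a t ha ih => rw [Finset.prod_cons, Finset.sum_cons, zpow_add₀ hs, ih]
  rw [h2, ns, zpow_zero, one_mul]

lemma ne_neg_of {p : ℕ} (hp : p.Prime) (h5 : 5 ≤ p) {c : ZMod p} (hc : c ≠ 0) : c ≠ -c := by
  have hpf : Fact p.Prime := ⟨hp⟩
  intro h
  have h2 : (2 : ZMod p) * c = 0 := by
    linear_combination h
  rcases mul_eq_zero.mp h2 with h3 | h3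
  · have h4 : ((2 : ℕ) : ZMod p) = 0 := by exact_mod_cast h3
    rw [ZMod.natCast_eq_zero_iff] at h4
    exact absurd (Nat.le_of_dvd (by norm_num) h4) (by omega)
  · exact hc h3

/-- a relation between the numbers `γ`, in the normal form -/
lemma gz_of_rel {p : ℕ} [NeZero p] (hp : p.Prime) (h5 : 5 ≤ p) {H : AddSubgroup W.Point}
    [Fintype H] (e : ZMod p ≃+ H) {r A B : K} (D : Dat W r A B) {n : ZMod p → ℤ} (n0 : n 0 = 0)
    (ns : ∑ c, n c = 0) (h : ∏ c, FK4.gam H ((e c : H) : W.Point) ^ n c = 1) :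
    ∏ c, gz (B / 64) (zc e r A) c ^ n c = 1 := by
  have h1 := congrArg (algebraMap k K) h
  rw [map_one, map_prod] at h1
  simp only [map_zpow₀] at h1
  have h4 : (4 : K) ≠ 0 := by norm_num
  refine (prod_factor (mul_ne_zero (pow_ne_zero p D.ne) (pow_ne_zero p h4))
    (fun c hc => ?_) n0 ns).symm.trans h1
  rw [gam_of e D hp h5 c hc, gax_eq hc (ne_neg_of hp h5 hc), mul_assoc]
  rfl

/-- the multiples of a multiple -/
lemma zc_mul {p : ℕ} [NeZero p] {H H' : AddSubgroup W.Point} (e : ZMod p ≃+ H)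
    (e' : ZMod p ≃+ H') {u : ZMod p} (h : ((e' 1 : H') : W.Point) = ((e u : H) : W.Point))
    (r A : K) : zc e' r A = fun c => zc e r A (u * c) := by
  funext c
  unfold zc xc
  have h1 : u * c = c.val • u := by
    rw [nsmul_eq_mul, ZMod.natCast_zmod_val, mul_comm]
  rw [h1, map_nsmul, e_val e' c, h]
  rfl

/-- **the core**: a relation which holds for all the points of order `p` is trivial -/
theorem core {p : ℕ} [NeZero p] (hp : p.Prime) (h5 : 5 ≤ p) (O₀ : ValuationSubring k)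
    (h6 : (p : k)⁻¹ ∈ O₀) (hj : W.c₄ ^ 3 / W.Δ ∉ O₀)
    {n : ZMod p → ℤ} (hn : ∀ c, n (-c) = n c) (n0 : n 0 = 0) (ns : ∑ c, n c = 0)
    (P Q : W.Point) (hP : P ≠ 0) (hpP : p • P = 0) (hpQ : p • Q = 0)
    (hQ : Q ∉ AddSubgroup.zmultiples P)
    (hrel : ∀ R : W.Point, R ≠ 0 → p • R = 0 →
      ∃ (H : AddSubgroup W.Point) (_ : Fintype H) (e : ZMod p ≃+ H),
        ((e 1 : H) : W.Point) = R ∧ ∏ c, FK4.gam H ((e c : H) : W.Point) ^ n c = 1) :
    ∀ c, n c = 0 := by
  have hpf : Fact p.Prime := ⟨hp⟩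
  obtain ⟨O, r, A, B, D, vp, hB0, hB⟩ :=
    exists_place (K := AlgebraicClosure k) hp.ne_zero O₀ h6 hj
  have hQ0 : Q ≠ 0 := by
    rintro rfl
    exact hQ (AddSubgroup.zero_mem _)
  -- a point of the second type
  obtain ⟨R, hR0, hpR, e, heR, hx⟩ : ∃ (R : W.Point), R ≠ 0 ∧ p • R = 0 ∧
      ∃ e : ZMod p ≃+ AddSubgroup.zmultiples R,
        ((e 1 : AddSubgroup.zmultiples R) : W.Point) = R ∧
          ∀ c, c ≠ 0 → O.valuation (zc e r A c) < 1 := by
    obtain ⟨eP, heP⟩ := exists_e hp P hP hpP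
    obtain ⟨eQ, heQ⟩ := exists_e hp Q hQ0 hpQ
    rcases two_points hp h5 D vp hB P Q hpP hpQ hQ eP heP eQ heQ with h | h
    · exact ⟨P, hP, hpP, eP, heP, h⟩
    · exact ⟨Q, hQ0, hpQ, eQ, heQ, h⟩
  have t := tz_zc e D hp h5
  have hB0' : B / 64 ≠ 0 := div_ne_zero hB0 (by norm_num)
  -- the relation for all its multiples
  have hall : ∀ u : ZMod p, u ≠ 0 → ∏ c, gz (B / 64) (zc e r A) (u * c) ^ n c = 1 := by
    intro u hu
    obtain ⟨H, hH, e', he', hr⟩ := hrel ((e u : AddSubgroup.zmultiples R) : W.Point) (e_ne e hu)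
      (by rw [e_val, heR, smul_smul, mul_comm, mul_smul, hpR, smul_zero])
    have h1 := gz_of_rel hp h5 e' D n0 ns hr
    rw [zc_mul e e' he' r A] at h1
    simpa only [gz_mul hp hu] using h1
  refine TJN.even_zero n hn ns fun s => ?_
  rw [← rel_all hp h5 t hB0' hB hx n0 hall s]
  refine Finset.sum_congr rfl fun c _ => ?_
  have hlt := ZMod.val_lt (s * c)
  rw [Nat.cast_mul, Nat.cast_sub hlt.le]

end Pool.Agent.NK
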