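import Pool.Agent.Lib_helper99.NK.A

/-!
# Points whose order is a unit are integral
-/

set_option autoImplicit false
set_option linter.unusedSectionVars false

namespace Pool.Agent.NK

variable {K : Type*} [Field K] {G : Type*} [LinearOrderedCommGroupWithZero G]
  {v : Valuation K G} {p : ℕ} {b : K} {x : ZMod p → K}

lemma nat_ne {n : ℕ} (h1 : 1 ≤ n) (h2 : n < p) : ((n : ℕ) : ZMod p) ≠ 0 := by
  intro h
  rw [ZMod.natCast_eq_zero_iff] at h
  have := Nat.le_of_dvd (by omega) h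
  omega

variable (v) in
/-- the natural numbers are integral -/
lemma v_nat (n : ℕ) : v (n : K) ≤ 1 := by
  induction n with
  | zero => rw [Nat.cast_zero, map_zero]; exact zero_le
  | succ n ih =>
    rw [Nat.cast_succ]
    exact (v.map_add _ _).trans (max_le ih (by rw [map_one]))

variable (v) in
lemma v_ofNat (n : ℕ) [n.AtLeastTwo] : v (OfNat.ofNat n : K) ≤ 1 := by
  have := v_nat v n
  rwa [← Nat.cast_ofNat] at *

lemma le_add {a c : K} {g : G} (ha : v a ≤ g) (hc : v c ≤ g) : v (a + c) ≤ g :=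
  (v.map_add _ _).trans (max_le ha hc)

lemma le_sub {a c : K} {g : G} (ha : v a ≤ g) (hc : v c ≤ g) : v (a - c) ≤ g :=
  (v.map_sub _ _).trans (max_le ha hc)

lemma lt_add {a c : K} {g : G} (ha : v a < g) (hc : v c < g) : v (a + c) < g :=
  (v.map_add _ _).trans_lt (max_lt ha hc)

lemma lt_sub {a c : K} {g : G} (ha : v a < g) (hc : v c < g) : v (a - c) < g :=
  (v.map_sub _ _).trans_lt (max_lt ha hc)

lemma v_one_sub {e : K} (he : v e < 1) : v (1 - e) = 1 := by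
  rw [Valuation.map_sub_eq_of_lt_left, map_one]
  rwa [map_one]

/-- the sum of two points with poles -/
lemma step {w1 wn wm X b : K} (h1 : w1 ≠ 0) (hn : wn ≠ 0) (hm : wm ≠ 0)
    (hs : (X + wm⁻¹) * (wn⁻¹ - w1⁻¹) ^ 2 = wn⁻¹ * w1⁻¹ * (1 + 2 * wn⁻¹ + 2 * w1⁻¹) + 4 * b)
    (hp : X * wm⁻¹ * (wn⁻¹ - w1⁻¹) ^ 2 = (wn⁻¹ * w1⁻¹) ^ 2 - 4 * b * (wn⁻¹ + w1⁻¹) - b)
    (hv1 : v w1 < 1) (hvn : v wn ≤ v w1) (hb : v b ≤ 1) :
    X ≠ 0 ∧ v (X⁻¹ - (2 * w1 + 2 * wn - wm)) ≤ v w1 ^ 2 := by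
  obtain ⟨e, he⟩ : ∃ e : K, e = 4 * b * (wn * w1) * (wn + w1) + b * (wn * w1) ^ 2 := ⟨_, rfl⟩
  have hw : wn * w1 ≠ 0 := mul_ne_zero hn h1
  have p1 : X * wm⁻¹ * (w1 - wn) ^ 2 = 1 - e := by
    have := congrArg (· * (wn * w1) ^ 2) hp
    have e1 : X * wm⁻¹ * (wn⁻¹ - w1⁻¹) ^ 2 * (wn * w1) ^ 2 = X * wm⁻¹ * (w1 - wn) ^ 2 := by
      field_simp
    have e2 : ((wn⁻¹ * w1⁻¹) ^ 2 - 4 * b * (wn⁻¹ + w1⁻¹) - b) * (wn * w1) ^ 2 = 1 - e := by
      rw [he]
      field_simp
      ring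
    rwa [e1, e2] at this
  have s1 : (X + wm⁻¹) * (w1 - wn) ^ 2 = 2 * (w1 + wn) + wn * w1 + 4 * b * (wn * w1) ^ 2 := by
    have := congrArg (· * (wn * w1) ^ 2) hs
    have e1 : (X + wm⁻¹) * (wn⁻¹ - w1⁻¹) ^ 2 * (wn * w1) ^ 2 = (X + wm⁻¹) * (w1 - wn) ^ 2 := by
      field_simp
    have e2 : (wn⁻¹ * w1⁻¹ * (1 + 2 * wn⁻¹ + 2 * w1⁻¹) + 4 * b) * (wn * w1) ^ 2 =
        2 * (w1 + wn) + wn * w1 + 4 * b * (wn * w1) ^ 2 := by
      field_simp
      ring
    rwa [e1, e2] at this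
  -- sizes
  have a1 : v (wn * w1) ≤ v w1 ^ 2 := by
    rw [map_mul, sq]
    exact mul_le_mul_left hvn _
  have a0 : v w1 ^ 2 ≤ v w1 := by
    rw [sq]
    exact mul_le_of_le_one_left' hv1.le
  have a2 : v (wn * w1) ≤ v w1 := a1.trans a0
  have a3 : v (wn + w1) ≤ v w1 := le_add hvn le_rfl
  have h4 : v (4 * b) ≤ 1 := by
    rw [map_mul]
    exact mul_le_one' (v_ofNat v 4) hb
  have ve : v e ≤ v w1 := by
    rw [he]
    refine le_add ?_ ?_
    · rw [map_mul, map_mul]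
      exact (mul_le_of_le_one_left' (mul_le_one' h4 (a2.trans hv1.le))).trans a3
    · rw [map_mul, map_pow]
      refine (mul_le_of_le_one_left' hb).trans ?_
      rw [sq]
      exact (mul_le_of_le_one_left' (a2.trans hv1.le)).trans a2
  have ve1 : v (1 - e) = 1 := v_one_sub (ve.trans_lt hv1)
  have he0 : 1 - e ≠ 0 := by
    intro h
    rw [h, map_zero] at ve1
    exact zero_ne_one ve1
  have hX : X ≠ 0 := by
    rintro rfl
    rw [zero_mul, zero_mul] at p1
    exact he0 p1.symm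
  refine ⟨hX, ?_⟩
  have key : (X⁻¹ - (2 * w1 + 2 * wn - wm)) * (1 - e) =
      wn * w1 + 4 * b * (wn * w1) ^ 2 + 2 * (wn + w1) * e := by
    have k1 : X⁻¹ * (1 - e) + wm * (1 - e) =
        2 * (w1 + wn) + wn * w1 + 4 * b * (wn * w1) ^ 2 := by
      rw [← s1, ← p1]
      field_simp
      ring
    linear_combination k1
  have kv := congrArg v key
  rw [map_mul, ve1, mul_one] at kv
  rw [kv]
  refine le_add (le_add a1 ?_) ?_
  · rw [map_mul, map_pow]
    refine (mul_le_of_le_one_left' h4).trans ?_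
    rw [sq]
    exact (mul_le_of_le_one_left' (a2.trans hv1.le)).trans a1
  · rw [map_mul, map_mul, sq]
    exact mul_le_mul' ((mul_le_of_le_one_left' (v_ofNat v 2)).trans a3) ve

/-- the double of a point with a pole -/
lemma step2 {w1 X b : K} (h1 : w1 ≠ 0)
    (hd : X * fz b w1⁻¹ = w1⁻¹ ^ 4 - 8 * b * w1⁻¹ - b)
    (hv1 : v w1 < 1) (hb : v b ≤ 1) :
    X ≠ 0 ∧ v (X⁻¹ - 4 * w1) ≤ v w1 ^ 2 := by
  obtain ⟨e, he⟩ : ∃ e : K, e = 8 * b * w1 ^ 3 + b * w1 ^ 4 := ⟨_, rfl⟩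
  have p1 : X * (w1 * (4 + w1 + 4 * b * w1 ^ 3)) = 1 - e := by
    have := congrArg (· * w1 ^ 4) hd
    have e1 : X * fz b w1⁻¹ * w1 ^ 4 = X * (w1 * (4 + w1 + 4 * b * w1 ^ 3)) := by
      unfold fz
      field_simp
    have e2 : (w1⁻¹ ^ 4 - 8 * b * w1⁻¹ - b) * w1 ^ 4 = 1 - e := by
      rw [he]
      field_simp
      ring
    rwa [e1, e2] at this
  have h8 : v (8 * b) ≤ 1 := by
    rw [map_mul]
    exact mul_le_one' (v_ofNat v 8) hb
  have h4 : v (4 * b) ≤ 1 := by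
    rw [map_mul]
    exact mul_le_one' (v_ofNat v 4) hb
  have ve : v e ≤ v w1 := by
    rw [he]
    refine le_add ?_ ?_
    · rw [map_mul, map_pow]
      refine (mul_le_of_le_one_left' h8).trans ?_
      exact pow_le_of_le_one zero_le hv1.le (by norm_num)
    · rw [map_mul, map_pow]
      refine (mul_le_of_le_one_left' hb).trans ?_
      exact pow_le_of_le_one zero_le hv1.le (by norm_num)
  have ve1 : v (1 - e) = 1 := v_one_sub (ve.trans_lt hv1)
  have he0 : 1 - e ≠ 0 := by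
    intro h
    rw [h, map_zero] at ve1
    exact zero_ne_one ve1
  have hX : X ≠ 0 := by
    rintro rfl
    rw [zero_mul] at p1
    exact he0 p1.symm
  refine ⟨hX, ?_⟩
  have key : (X⁻¹ - 4 * w1) * (1 - e) = w1 * (w1 + 4 * b * w1 ^ 3 + 4 * e) := by
    have k1 : X⁻¹ * (1 - e) = w1 * (4 + w1 + 4 * b * w1 ^ 3) := by
      rw [← p1]
      field_simp
    linear_combination k1
  have kv := congrArg v key
  rw [map_mul, ve1, mul_one] at kv
  rw [kv, map_mul, sq]
  refine mul_le_mul' le_rfl ?_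
  refine le_add (le_add le_rfl ?_) ?_
  · rw [map_mul, map_pow]
    exact (mul_le_of_le_one_left' h4).trans (pow_le_of_le_one zero_le hv1.le (by norm_num))
  · rw [map_mul]
    exact (mul_le_of_le_one_left' (v_ofNat v 4)).trans ve

/-- **the abscissae are integral**, if `p` is a unit -/
theorem int (hp : p.Prime) (h5 : 5 ≤ p) (hvp : v (p : K) = 1) (hb : v b ≤ 1)
    (t : Tz p b x) {c : ZMod p} (hc : c ≠ 0) : v (x c) ≤ 1 := by
  have : Fact p.Prime := ⟨hp⟩
  by_contra hcon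
  rw [not_le] at hcon
  have hx0 : x c ≠ 0 := by
    intro h
    rw [h, map_zero] at hcon
    exact absurd hcon (not_lt.mpr zero_le)
  obtain ⟨w, hw⟩ : ∃ w : K, w = (x c)⁻¹ := ⟨_, rfl⟩
  have hw0 : w ≠ 0 := by rw [hw]; exact inv_ne_zero hx0
  have hxw : x c = w⁻¹ := by rw [hw, inv_inv]
  have hvw : v w < 1 := by
    rw [hw, map_inv₀]
    exact inv_lt_one_of_one_lt₀ hcon
  have hvw0 : 0 < v w := zero_lt_iff.mpr ((v.ne_zero_iff).mpr hw0)
  have hsq : v w ^ 2 < v w := by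
    rw [sq]
    calc v w * v w < v w * 1 := mul_lt_mul_of_pos_left hvw hvw0
      _ = v w := mul_one _
  -- the claim
  have key : ∀ n : ℕ, 1 ≤ n → n + 1 < p →
      (x ((n : ZMod p) * c) ≠ 0 ∧ v ((x ((n : ZMod p) * c))⁻¹ - (n : K) ^ 2 * w) < v w) ∧
      (x (((n + 1 : ℕ) : ZMod p) * c) ≠ 0 ∧
        v ((x (((n + 1 : ℕ) : ZMod p) * c))⁻¹ - ((n + 1 : ℕ) : K) ^ 2 * w) < v w) := by
    intro n
    induction n with
    | zero => intro h; omega
    | succ n ih =>
      intro _ hn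
      rcases Nat.eq_zero_or_pos n with rfl | hpos
      · refine ⟨⟨?_, ?_⟩, ?_⟩
        · simpa using hx0
        · simp only [zero_add, Nat.cast_one, one_mul, one_pow, ← hw, sub_self, map_zero]
          exact hvw0
        · have hd := t.dbl c hc
          rw [hxw] at hd
          have h2 := step2 (v := v) hw0 hd hvw hb
          have e : ((0 + 1 + 1 : ℕ) : ZMod p) * c = 2 * c := by norm_num
          have e' : ((0 + 1 + 1 : ℕ) : K) ^ 2 = 4 := by norm_num
          rw [e, e']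
          exact ⟨h2.1, h2.2.trans_lt hsq⟩
      · obtain ⟨⟨i1, i2⟩, i3, i4⟩ := ih (by omega) (by omega)
        refine ⟨⟨i3, i4⟩, ?_⟩
        have hnc : (((n + 1 : ℕ) : ZMod p)) * c ≠ 0 :=
          mul_ne_zero (nat_ne (by omega) (by omega)) hc
        have hb1 : (((n + 1 : ℕ) : ZMod p)) * c ≠ c := by
          intro h
          have h3 : ((n : ℕ) : ZMod p) * c = 0 := by
            push_cast at h
            linear_combination h
          exact mul_ne_zero (nat_ne hpos (by omega)) hc h3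
        have hb2 : (((n + 1 : ℕ) : ZMod p)) * c ≠ -c := by
          intro h
          have h3 : ((n + 2 : ℕ) : ZMod p) * c = 0 := by
            push_cast at h ⊢
            linear_combination h
          exact mul_ne_zero (nat_ne (by omega) (by omega)) hc h3
        have hs := t.sum _ c hnc hc hb1 hb2
        have hpr := t.prod _ c hnc hc hb1 hb2
        have e1 : (((n + 1 : ℕ) : ZMod p)) * c + c = ((n + 1 + 1 : ℕ) : ZMod p) * c := by
          push_cast; ring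
        have e2 : (((n + 1 : ℕ) : ZMod p)) * c - c = ((n : ℕ) : ZMod p) * c := by
          push_cast; ring
        rw [e1, e2] at hs hpr
        obtain ⟨X, hX⟩ : ∃ X, X = x (((n + 1 + 1 : ℕ) : ZMod p) * c) := ⟨_, rfl⟩
        obtain ⟨a, ha⟩ : ∃ a, a = (x (((n + 1 : ℕ) : ZMod p) * c))⁻¹ := ⟨_, rfl⟩
        obtain ⟨m, hm⟩ : ∃ m, m = (x (((n : ℕ) : ZMod p) * c))⁻¹ := ⟨_, rfl⟩
        have ha' : x (((n + 1 : ℕ) : ZMod p) * c) = a⁻¹ := by rw [ha, inv_inv]
        have hm' : x (((n : ℕ) : ZMod p) * c) = m⁻¹ := by rw [hm, inv_inv]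
        have ha0 : a ≠ 0 := by rw [ha]; exact inv_ne_zero i3
        have hm0 : m ≠ 0 := by rw [hm]; exact inv_ne_zero i1
        rw [← hX, ha', hm', hxw] at hs hpr
        rw [← hm] at i2
        rw [← ha] at i4
        have hva : v a ≤ v w := by
          have e3 : a = (a - ((n + 1 : ℕ) : K) ^ 2 * w) + ((n + 1 : ℕ) : K) ^ 2 * w := by ring
          rw [e3]
          refine le_add i4.le ?_
          rw [map_mul, map_pow]
          exact mul_le_of_le_one_left' (pow_le_one₀ zero_le (v_nat v _))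
        obtain ⟨j1, j2⟩ := step (v := v) hw0 ha0 hm0 hs hpr hvw hva hb
        rw [← hX]
        refine ⟨j1, ?_⟩
        have e4 : X⁻¹ - ((n + 1 + 1 : ℕ) : K) ^ 2 * w =
            (X⁻¹ - (2 * w + 2 * a - m)) + (2 * (a - ((n + 1 : ℕ) : K) ^ 2 * w) -
              (m - ((n : ℕ) : K) ^ 2 * w)) := by
          push_cast
          ring
        rw [e4]
        refine lt_add (j2.trans_lt hsq) (lt_sub ?_ i2)
        rw [map_mul]
        exact (mul_le_of_le_one_left' (v_ofNat v 2)).trans_lt i4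
  -- the two halves
  obtain ⟨q, hq⟩ : ∃ q, p = 2 * q + 1 := by
    rcases hp.eq_two_or_odd with h | h
    · omega
    · exact ⟨p / 2, by omega⟩
  obtain ⟨⟨_, i2⟩, _, i4⟩ := key q (by omega) (by omega)
  have e1 : ((q + 1 : ℕ) : ZMod p) * c = -(((q : ℕ) : ZMod p) * c) := by
    have hz : ((2 * q + 1 : ℕ) : ZMod p) = 0 := by
      rw [← hq]
      exact ZMod.natCast_self _
    push_cast at hz ⊢
    linear_combination c * hz
  rw [e1, t.even] at i4
  have h9 : v ((p : K) * w) < v w := by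
    have e2 : (p : K) * w = (((x (((q : ℕ) : ZMod p) * c))⁻¹ - (q : K) ^ 2 * w)) -
        ((x (((q : ℕ) : ZMod p) * c))⁻¹ - ((q + 1 : ℕ) : K) ^ 2 * w) := by
      have hpK : (p : K) = 2 * (q : K) + 1 := by exact_mod_cast congrArg (Nat.cast (R := K)) hq
      rw [hpK]
      push_cast
      ring
    rw [e2]
    exact lt_sub i2 i4
  rw [map_mul, hvp, one_mul] at h9
  exact lt_irrefl _ h9

end Pool.Agent.NK
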