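import Pool.Agent.Lib_helper99.NK.N
import Pool.Agent.Lib_helper99.TJG.L7b

/-!
# The root of unity at the node, in every residue characteristic
-/

set_option autoImplicit false
set_option linter.unusedSectionVars false

namespace Pool.Agent.NK

open Pool.Agent.TJG (inO res_zero_iff res_eq_iff yy yy_of near_root)
open IsLocalRing (residue)

variable {K : Type*} [Field K] [CharZero K] {O : ValuationSubring K} {p : ℕ} {b : K}
  {x : ZMod p → K}

theorem nod_of (hp : p.Prime) (h5 : 5 ≤ p) (t : Tz p b x)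
    (hb : O.valuation b < 1) (h1 : ∀ c, c ≠ 0 → O.valuation (x c) = 1) :
    Nod p (yy O x h1) := by
  have hb0 : residue O (inO b hb.le) = 0 := (res_zero_iff _).mpr hb
  have hmul2 : ∀ c : ZMod p, c ≠ 0 → 2 * c ≠ 0 := fun c hc => two_mul_ne hp h5 hc
  refine ⟨?_, ?_, ?_, ?_, ?_⟩
  · intro c
    by_cases hc : c = 0
    · rw [hc, neg_zero]
    · rw [yy_of h1 hc, yy_of h1 (neg_ne_zero.mpr hc)]
      congr 1
      exact Subtype.ext (t.even c)
  · intro c hc
    rw [yy_of h1 hc]
    intro h
    rw [res_zero_iff] at h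
    exact (ne_of_lt h) (h1 c hc)
  · intro c hc
    have hc2 := hmul2 c hc
    rw [yy_of h1 hc, yy_of h1 hc2]
    have e := t.dbl c hc
    have e' : inO (x (2 * c)) (h1 _ hc2).le * (4 * inO (x c) (h1 c hc).le ^ 3 +
        inO (x c) (h1 c hc).le ^ 2 + 4 * inO b hb.le) =
        inO (x c) (h1 c hc).le ^ 4 - 8 * inO b hb.le * inO (x c) (h1 c hc).le -
          inO b hb.le := by
      apply Subtype.ext
      show x (2 * c) * (4 * x c ^ 3 + x c ^ 2 + 4 * b) = x c ^ 4 - 8 * b * x c - b
      unfold fz at e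
      linear_combination e
    have e'' := congrArg (residue O) e'
    simp only [map_mul, map_add, map_sub, map_pow, map_ofNat, hb0] at e''
    linear_combination e''
  · intro a c ha hc hac hac'
    have hs1 : a + c ≠ 0 := add_ne_of hac'
    have hs2 : a - c ≠ 0 := sub_ne_zero.mpr hac
    rw [yy_of h1 ha, yy_of h1 hc, yy_of h1 hs1, yy_of h1 hs2]
    have e := t.sum a c ha hc hac hac'
    have e' : (inO (x (a + c)) (h1 _ hs1).le + inO (x (a - c)) (h1 _ hs2).le) *
        (inO (x a) (h1 a ha).le - inO (x c) (h1 c hc).le) ^ 2 =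
        inO (x a) (h1 a ha).le * inO (x c) (h1 c hc).le *
          (1 + 2 * inO (x a) (h1 a ha).le + 2 * inO (x c) (h1 c hc).le) + 4 * inO b hb.le := by
      apply Subtype.ext
      show (x (a + c) + x (a - c)) * (x a - x c) ^ 2 =
        x a * x c * (1 + 2 * x a + 2 * x c) + 4 * b
      linear_combination e
    have e'' := congrArg (residue O) e'
    simp only [map_mul, map_add, map_sub, map_pow, map_ofNat, map_one, hb0] at e''
    linear_combination e''
  · intro a c ha hc hac hac'
    have hs1 : a + c ≠ 0 := add_ne_of hac'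
    have hs2 : a - c ≠ 0 := sub_ne_zero.mpr hac
    rw [yy_of h1 ha, yy_of h1 hc, yy_of h1 hs1, yy_of h1 hs2]
    have e := t.prod a c ha hc hac hac'
    have e' : inO (x (a + c)) (h1 _ hs1).le * inO (x (a - c)) (h1 _ hs2).le *
        (inO (x a) (h1 a ha).le - inO (x c) (h1 c hc).le) ^ 2 =
        (inO (x a) (h1 a ha).le * inO (x c) (h1 c hc).le) ^ 2 -
          4 * inO b hb.le * (inO (x a) (h1 a ha).le + inO (x c) (h1 c hc).le) -
            inO b hb.le := by
      apply Subtype.ext
      show x (a + c) * x (a - c) * (x a - x c) ^ 2 =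
        (x a * x c) ^ 2 - 4 * b * (x a + x c) - b
      linear_combination e
    have e'' := congrArg (residue O) e'
    simp only [map_mul, map_add, map_sub, map_pow, map_ofNat, hb0] at e''
    linear_combination e''

/-- **the root of unity** -/
theorem root [IsAlgClosed K] (hp : p.Prime) (h5 : 5 ≤ p)
    (t : Tz p b x) (hb : O.valuation b < 1)
    (h1 : ∀ c, c ≠ 0 → O.valuation (x c) = 1) :
    ∃ z : K, IsPrimitiveRoot z p ∧ ∀ c : ZMod p, c ≠ 0 →
      O.valuation (x c - z ^ c.val / (z ^ c.val - 1) ^ 2) < 1 := by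
  have N := nod_of hp h5 t hb h1
  have h10 : (1 : ZMod p) ≠ 0 := by
    have : Fact p.Prime := ⟨hp⟩
    exact one_ne_zero
  have hx0 : x 1 ≠ 0 := by
    intro h0
    have := h1 1 h10
    rw [h0, map_zero] at this
    exact zero_ne_one this
  obtain ⟨m, hm⟩ : ∃ m : K, m = 2 + (x 1)⁻¹ := ⟨_, rfl⟩
  have hmv : O.valuation m ≤ 1 := by
    rw [hm]
    refine le_add (v_ofNat O.valuation 2) ?_
    rw [map_inv₀, h1 1 h10, inv_one]
  obtain ⟨s, hs⟩ := IsAlgClosed.exists_pow_nat_eq (m ^ 2 - 4) (n := 2) (by norm_num)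
  obtain ⟨U, hU⟩ : ∃ U : K, U = (m + s) / 2 := ⟨_, rfl⟩
  obtain ⟨V, hV⟩ : ∃ V : K, V = (m - s) / 2 := ⟨_, rfl⟩
  have hprod : U * V = 1 := by
    rw [hU, hV]
    linear_combination -hs / 4
  have hUV : U + V = m := by
    rw [hU, hV]
    ring
  have hle : ∀ X Y : K, X * Y = 1 → X + Y = m → O.valuation X ≤ 1 := by
    intro X Y hXY hS
    by_contra hc
    rw [not_le] at hc
    have h3 := congrArg O.valuation hXY
    rw [map_mul, map_one] at h3
    have hY : O.valuation Y < 1 := by
      by_contra hY
      rw [not_lt] at hY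
      have h4 : 1 < O.valuation X * O.valuation Y :=
        lt_of_lt_of_le hc (le_mul_of_one_le_right' hY)
      rw [h3] at h4
      exact lt_irrefl _ h4
    have h5' := congrArg O.valuation hS
    rw [Valuation.map_add_eq_of_lt_left _ (hY.trans hc)] at h5'
    rw [h5'] at hc
    exact absurd hc (not_lt.mpr hmv)
  have hUle := hle U V hprod hUV
  have hUle' := hle V U (by rw [mul_comm]; exact hprod) (by rw [add_comm]; exact hUV)
  have hUv : O.valuation U = 1 := by
    apply le_antisymm hUle
    by_contra hc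
    rw [not_le] at hc
    have h3 : O.valuation U * O.valuation V < 1 :=
      lt_of_le_of_lt (mul_le_of_le_one_right' hUle') hc
    rw [← map_mul, hprod, map_one] at h3
    exact lt_irrefl _ h3
  -- the residue classes
  obtain ⟨u, hu⟩ : ∃ u, u = residue O (inO U hUle) := ⟨_, rfl⟩
  obtain ⟨w, hw⟩ : ∃ w, w = residue O (inO V hUle') := ⟨_, rfl⟩
  have huw : u * w = 1 := by
    rw [hu, hw, ← map_mul]
    have : inO U hUle * inO V hUle' = (1 : O) := Subtype.ext hprod
    rw [this, map_one]
  have hu0 : u ≠ 0 := by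
    rintro rfl
    rw [zero_mul] at huw
    exact zero_ne_one huw
  have hwu : w = u⁻¹ := (inv_eq_of_mul_eq_one_right huw).symm
  have hy1 : 2 + 1 / yy O x h1 1 = u + u⁻¹ := by
    have hxm : x 1 * (U + V) = 2 * x 1 + 1 := by
      rw [hUV, hm]
      field_simp
    have e : inO (x 1) (h1 1 h10).le * (inO U hUle + inO V hUle') =
        2 * inO (x 1) (h1 1 h10).le + 1 := Subtype.ext hxm
    have e' := congrArg (residue O) e
    simp only [map_mul, map_add, map_ofNat, map_one, ← hu, ← hw, ← yy_of h1 h10] at e'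
    have hy := N.ne0 1 h10
    rw [← hwu]
    field_simp
    linear_combination -e'
  have hup : u ^ p = 1 := N.unity h5 hu0 hy1
  have hUp : O.valuation (U ^ p - 1) < 1 := by
    have e : residue O (inO U hUle ^ p) = residue O 1 := by
      rw [map_pow, ← hu, hup, map_one]
    rw [res_eq_iff] at e
    exact e
  obtain ⟨z, hz, hzU⟩ := near_root hp hUv hUp
  have hzv : O.valuation z = 1 := by
    have h3 := congrArg O.valuation hz
    rw [map_pow, map_one] at h3
    exact (pow_eq_one_iff_of_nonneg zero_le hp.ne_zero).mp h3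
  have hzu : residue O (inO z hzv.le) = u := by
    rw [hu, eq_comm, res_eq_iff]
    exact hzU
  have hu1 : u ≠ 1 := by
    intro h0
    rw [h0, inv_one] at hy1
    have hy := N.ne0 1 h10
    have h6 : 1 / yy O x h1 1 = 0 := by linear_combination hy1
    rw [one_div, inv_eq_zero] at h6
    exact hy h6
  have hz1 : z ≠ 1 := by
    rintro rfl
    apply hu1
    rw [← hzu]
    have : inO (1 : K) hzv.le = (1 : O) := rfl
    rw [this, map_one]
  have hprim : IsPrimitiveRoot z p := by
    have : Fact p.Prime := ⟨hp⟩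
    rw [IsPrimitiveRoot.iff_orderOf]
    exact orderOf_eq_prime hz hz1
  refine ⟨z, hprim, fun c hc => ?_⟩
  -- the class of `x c`
  have hne : NeZero p := ⟨hp.ne_zero⟩
  have hcv : c.val < p := ZMod.val_lt c
  have hcv0 : c.val ≠ 0 := by
    intro h0
    exact hc ((ZMod.val_eq_zero c).mp h0)
  have hcc : ((c.val : ℕ) : ZMod p) = c := ZMod.natCast_zmod_val c
  have hy : 2 + 1 / yy O x h1 c = u ^ c.val + u⁻¹ ^ c.val := by
    rcases Nat.lt_or_ge (c.val + 1) p with hlt | hge
    · have := (N.pow h5 hu0 hy1 c.val (by omega) hlt).1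
      rwa [hcc] at this
    · have := (N.pow h5 hu0 hy1 (c.val - 1) (by omega) (by omega)).2
      have e : c.val - 1 + 1 = c.val := by omega
      rwa [e, hcc] at this
  have hyne := N.ne0 c hc
  have huc : yy O x h1 c * (u ^ c.val - 1) ^ 2 = u ^ c.val := by
    have h7 : u ^ c.val * u⁻¹ ^ c.val = 1 := by
      rw [← mul_pow, mul_inv_cancel₀ hu0, one_pow]
    have h8 : yy O x h1 c * (u ^ c.val + u⁻¹ ^ c.val - 2) = 1 := by
      rw [← hy]
      field_simp
      ring
    linear_combination u ^ c.val * h8 - yy O x h1 c * h7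
  have hden : O.valuation (z ^ c.val - 1) = 1 := by
    have hle : O.valuation (z ^ c.val - 1) ≤ 1 := by
      refine (Valuation.map_sub _ _ _).trans (max_le ?_ (by rw [map_one]))
      rw [map_pow, hzv, one_pow]
    apply le_antisymm hle
    by_contra hc'
    rw [not_le] at hc'
    have e : residue O (inO z hzv.le ^ c.val) = residue O 1 := by
      rw [res_eq_iff]
      exact hc'
    rw [map_pow, hzu, map_one] at e
    rw [e, sub_self, zero_pow (by norm_num), mul_zero] at huc
    exact zero_ne_one huc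
  have hden0 : z ^ c.val - 1 ≠ 0 := by
    intro h0
    rw [h0, map_zero] at hden
    exact zero_ne_one hden
  have hnum : O.valuation (x c * (z ^ c.val - 1) ^ 2 - z ^ c.val) < 1 := by
    have e : residue O (inO (x c) (h1 c hc).le * (inO z hzv.le ^ c.val - 1) ^ 2) =
        residue O (inO z hzv.le ^ c.val) := by
      simp only [map_mul, map_sub, map_pow, map_one, hzu, ← yy_of h1 hc]
      exact huc
    rw [res_eq_iff] at e
    exact e
  have e : x c - z ^ c.val / (z ^ c.val - 1) ^ 2 =
      (x c * (z ^ c.val - 1) ^ 2 - z ^ c.val) / (z ^ c.val - 1) ^ 2 := by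
    field_simp
  rw [e, map_div₀, map_pow, hden, one_pow, div_one]
  exact hnum

end Pool.Agent.NK
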