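import Pool.Agent.Lib_helper99.NK.P

/-!
# The abscissae of the multiples of a point on the nodal cubic, in every characteristic
-/

set_option autoImplicit false
set_option linter.unusedSectionVars false

namespace Pool.Agent.NK

/-- the abscissae on `y² + x y = x³` -/
structure Nod {κ : Type*} [Field κ] (p : ℕ) (y : ZMod p → κ) : Prop where
  even : ∀ c, y (-c) = y c
  ne0 : ∀ c, c ≠ 0 → y c ≠ 0
  dbl : ∀ c, c ≠ 0 → y (2 * c) * (4 * y c ^ 3 + y c ^ 2) = y c ^ 4
  sum : ∀ b c, b ≠ 0 → c ≠ 0 → b ≠ c → b ≠ -c →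
    (y (b + c) + y (b - c)) * (y b - y c) ^ 2 = y b * y c * (1 + 2 * y b + 2 * y c)
  prod : ∀ b c, b ≠ 0 → c ≠ 0 → b ≠ c → b ≠ -c →
    y (b + c) * y (b - c) * (y b - y c) ^ 2 = (y b * y c) ^ 2

variable {κ : Type*} [Field κ] {p : ℕ} {y : ZMod p → κ}

lemma Nod.w_dbl (t : Nod p y) {c : ZMod p} (hc : c ≠ 0)
    (h2c : 2 * c ≠ 0) : 2 + 1 / y (2 * c) = (2 + 1 / y c) ^ 2 - 2 := by
  have h1 := t.ne0 c hc
  have h2 := t.ne0 _ h2c
  have h3 := t.dbl c hc
  have h5 : y (2 * c) * (4 * y c + 1) = y c ^ 2 := by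
    apply mul_left_cancel₀ (pow_ne_zero 2 h1)
    linear_combination h3
  field_simp
  linear_combination -h5

lemma Nod.w_sum (t : Nod p y) {b c : ZMod p} (hb : b ≠ 0) (hc : c ≠ 0)
    (h1 : b ≠ c) (h2 : b ≠ -c) :
    (2 + 1 / y (b + c)) + (2 + 1 / y (b - c)) = (2 + 1 / y b) * (2 + 1 / y c) := by
  have e1 := t.ne0 b hb
  have e2 := t.ne0 c hc
  have e3 := t.ne0 (b + c) (fun h => h2 (eq_neg_of_add_eq_zero_left h))
  have e4 := t.ne0 (b - c) (sub_ne_zero.mpr h1)
  have hs := t.sum b c hb hc h1 h2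
  have hp := t.prod b c hb hc h1 h2
  have hd : (y b - y c) ^ 2 ≠ 0 := by
    intro h
    rw [h, mul_zero] at hp
    exact pow_ne_zero 2 (mul_ne_zero e1 e2) hp.symm
  have key : (y (b + c) + y (b - c)) * (y b * y c) =
      (1 + 2 * y b + 2 * y c) * (y (b + c) * y (b - c)) := by
    apply mul_left_cancel₀ hd
    linear_combination y b * y c * hs - (1 + 2 * y b + 2 * y c) * hp
  field_simp
  linear_combination key

theorem Nod.pow (t : Nod p y) (h5 : 5 ≤ p) {U : κ}
    (hU : U ≠ 0) (h1 : 2 + 1 / y 1 = U + U⁻¹) (n : ℕ) :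
    1 ≤ n → n + 1 < p → 2 + 1 / y (n : ZMod p) = U ^ n + U⁻¹ ^ n ∧
      2 + 1 / y ((n + 1 : ℕ) : ZMod p) = U ^ (n + 1) + U⁻¹ ^ (n + 1) := by
  have hne : ∀ m : ℕ, 1 ≤ m → m < p → ((m : ℕ) : ZMod p) ≠ 0 := by
    intro m hm1 hm2 h
    rw [ZMod.natCast_eq_zero_iff] at h
    have := Nat.le_of_dvd (by omega) h
    omega
  have h10 : (1 : ZMod p) ≠ 0 := by
    have := hne 1 le_rfl (by omega)
    simpa using this
  induction n with
  | zero => intro h; omega
  | succ n ih =>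
    intro _ hn
    rcases Nat.eq_zero_or_pos n with rfl | hpos
    · refine ⟨by simpa using h1, ?_⟩
      have h2 : (2 : ZMod p) * 1 ≠ 0 := by
        have := hne 2 (by norm_num) (by omega)
        simpa using this
      have h3 := t.w_dbl h10 h2
      have e : ((0 + 1 + 1 : ℕ) : ZMod p) = 2 * 1 := by norm_num
      have h6 : U * U⁻¹ = 1 := mul_inv_cancel₀ hU
      rw [e, h3, h1]
      linear_combination 2 * h6
    · obtain ⟨i1, i2⟩ := ih (by omega) (by omega)
      refine ⟨i2, ?_⟩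
      have hb := hne (n + 1) (by omega) (by omega)
      have hb1 : ((n + 1 : ℕ) : ZMod p) ≠ 1 := by
        intro h
        apply hne n hpos (by omega)
        push_cast at h
        linear_combination h
      have hb2 : ((n + 1 : ℕ) : ZMod p) ≠ -1 := by
        intro h
        apply hne (n + 2) (by omega) (by omega)
        push_cast at h ⊢
        linear_combination h
      have h3 := t.w_sum hb h10 hb1 hb2
      have e1 : ((n + 1 : ℕ) : ZMod p) + 1 = ((n + 1 + 1 : ℕ) : ZMod p) := by push_cast; ring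
      have e2 : ((n + 1 : ℕ) : ZMod p) - 1 = ((n : ℕ) : ZMod p) := by push_cast; ring
      rw [e1, e2, i1, i2, h1] at h3
      have h6 : U * U⁻¹ = 1 := mul_inv_cancel₀ hU
      linear_combination h3 + (U ^ n + U⁻¹ ^ n) * h6

theorem Nod.unity (t : Nod p y) (h5 : 5 ≤ p) {U : κ}
    (hU : U ≠ 0) (h1 : 2 + 1 / y 1 = U + U⁻¹) : U ^ p = 1 := by
  obtain ⟨q, rfl⟩ : ∃ q, p = q + 4 := ⟨p - 4, by omega⟩
  obtain ⟨i1, i2⟩ := t.pow h5 hU h1 (q + 2) (by omega) (by omega)
  obtain ⟨j1, j2⟩ := t.pow h5 hU h1 1 (by omega) (by omega)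
  have hz : ((q + 4 : ℕ) : ZMod (q + 4)) = 0 := ZMod.natCast_self _
  have e1 : ((q + 2 + 1 : ℕ) : ZMod (q + 4)) = -1 := by
    push_cast at hz ⊢
    linear_combination hz
  have e2 : ((q + 2 : ℕ) : ZMod (q + 4)) = -((1 + 1 : ℕ) : ZMod (q + 4)) := by
    push_cast at hz ⊢
    linear_combination hz
  rw [e1, t.even, h1] at i2
  rw [e2, t.even, j2] at i1
  have h6 : U * U⁻¹ = 1 := mul_inv_cancel₀ hU
  have k1 : (U ^ (q + 4) - 1) * (U ^ (q + 2) - 1) = 0 := by
    have := congrArg (· * (U ^ (q + 3))) i2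
    have h7 : U⁻¹ ^ (q + 2 + 1) * U ^ (q + 3) = 1 := by
      rw [← mul_pow, inv_mul_cancel₀ hU, one_pow]
    simp only [add_mul] at this
    rw [h7] at this
    have h8 : U⁻¹ * U ^ (q + 3) = U ^ (q + 2) := by
      rw [pow_succ, mul_comm, mul_assoc, h6, mul_one]
    rw [h8] at this
    linear_combination -this
  have k2 : (U ^ (q + 4) - 1) * (U ^ q - 1) = 0 := by
    have := congrArg (· * (U ^ (q + 2))) i1
    have h7 : U⁻¹ ^ (q + 2) * U ^ (q + 2) = 1 := by
      rw [← mul_pow, inv_mul_cancel₀ hU, one_pow]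
    simp only [add_mul] at this
    rw [h7] at this
    have h8 : U⁻¹ ^ (1 + 1) * U ^ (q + 2) = U ^ q := by
      have e3 : U⁻¹ ^ (1 + 1) * U ^ (q + 2) = (U * U⁻¹) ^ 2 * U ^ q := by ring
      rw [e3, h6, one_pow, one_mul]
    rw [h8] at this
    linear_combination -this
  by_contra hn
  have hn' : U ^ (q + 4) - 1 ≠ 0 := sub_ne_zero.mpr hn
  have k3 : U ^ (q + 2) = 1 := by
    rcases mul_eq_zero.mp k1 with h | h
    · exact absurd h hn'
    · linear_combination h
  have k4 : U ^ q = 1 := by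
    rcases mul_eq_zero.mp k2 with h | h
    · exact absurd h hn'
    · linear_combination h
  have k5 : U ^ 2 = 1 := by
    have : U ^ (q + 2) = U ^ q * U ^ 2 := pow_add _ _ _
    rw [k3, k4, one_mul] at this
    exact this.symm
  have k6 : U ^ (q + 4) = 1 := by
    rw [pow_add, k4, one_mul, show (4 : ℕ) = 2 * 2 by norm_num, pow_mul, k5, one_pow]
  exact hn k6

end Pool.Agent.NK
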