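import Pool.Agent.Lib_helper99.NK.I

/-!
# Bad reduction: the two types
-/

set_option autoImplicit false
set_option linter.unusedSectionVars false

namespace Pool.Agent.NK

variable {K : Type*} [Field K] {G : Type*} [LinearOrderedCommGroupWithZero G]
  {v : Valuation K G} {p : ℕ} {b : K} {x : ZMod p → K}

lemma two_mul_ne (hp : p.Prime) (h5 : 5 ≤ p) {c : ZMod p} (hc : c ≠ 0) : 2 * c ≠ 0 := by
  have := Fact.mk hp
  refine mul_ne_zero ?_ hc
  have := nat_ne (p := p) (n := 2) (by norm_num) (by omega)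
  exact_mod_cast this

lemma add_ne_of {a c : ZMod p} (h : a ≠ -c) : a + c ≠ 0 := fun e => h (eq_neg_of_add_eq_zero_left e)

lemma v_four_b (hb : v b < 1) : v (4 * b) < 1 := by
  rw [map_mul]
  exact (mul_le_of_le_one_left' (v_ofNat v 4)).trans_lt hb

/-- a unit and an element of the maximal ideal -/
lemma step_sum (hb : v b < 1) (t : Tz p b x)
    (hx : ∀ c, c ≠ 0 → v (x c) ≤ 1) {a c : ZMod p} (ha : a ≠ 0) (hc : c ≠ 0)
    (hva : v (x a) = 1) (hvc : v (x c) < 1) : a + c ≠ 0 ∧ v (x (a + c)) < 1 := by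
  have h1 : a ≠ c := by rintro rfl; exact (ne_of_lt hvc) hva
  have h3 : a ≠ -c := by
    rintro rfl
    rw [t.even] at hva
    exact (ne_of_lt hvc) hva
  have hac : a + c ≠ 0 := add_ne_of h3
  refine ⟨hac, ?_⟩
  have hd : v (x a - x c) = 1 := by
    rw [Valuation.map_sub_eq_of_lt_left, hva]
    rwa [hva]
  have hs := t.sum a c ha hc h1 h3
  have hp := t.prod a c ha hc h1 h3
  have hs' : v (x (a + c) + x (a - c)) < 1 := by
    have := congrArg v hs
    rw [map_mul, map_pow, hd, one_pow, mul_one] at this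
    rw [this]
    refine lt_add ?_ (v_four_b hb)
    rw [map_mul, map_mul, hva, one_mul]
    refine lt_of_le_of_lt (mul_le_of_le_one_right' ?_) hvc
    refine le_add (le_add (by rw [map_one]) ?_) ?_
    · rw [map_mul, hva, mul_one]; exact v_ofNat v 2
    · rw [map_mul]; exact mul_le_one' (v_ofNat v 2) hvc.le
  have hp' : v (x (a + c) * x (a - c)) < 1 := by
    have := congrArg v hp
    rw [map_mul v (x (a + c) * x (a - c)), map_pow, hd, one_pow, mul_one] at this
    rw [this]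
    refine lt_sub (lt_sub ?_ ?_) hb
    · rw [map_pow, map_mul, hva, one_mul]
      exact pow_lt_one₀ zero_le hvc (by norm_num)
    · rw [map_mul]
      exact lt_of_le_of_lt (mul_le_of_le_one_right' (le_add hva.le hvc.le)) (v_four_b hb)
  by_contra hn
  have h7 : v (x (a + c)) = 1 := le_antisymm (hx _ hac) (not_lt.mp hn)
  rw [map_mul, h7, one_mul] at hp'
  rw [Valuation.map_add_eq_of_lt_left, h7] at hs'
  · exact lt_irrefl _ hs'
  · rwa [h7]

theorem all_or_none (hp : p.Prime) (h5 : 5 ≤ p) (hb : v b < 1)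
    (t : Tz p b x) (hx : ∀ c, c ≠ 0 → v (x c) ≤ 1) :
    (∀ c, c ≠ 0 → v (x c) < 1) ∨
      ∀ c, c ≠ 0 → v (x c) = 1 ∧ v (fz b (x c)) = 1 := by
  have : Fact p.Prime := ⟨hp⟩
  by_cases hI : ∃ c, c ≠ 0 ∧ v (x c) < 1
  · obtain ⟨c, hc, hvc⟩ := hI
    left
    intro a ha
    by_contra hn
    have hva : v (x a) = 1 := le_antisymm (hx a ha) (not_lt.mp hn)
    have key : ∀ k : ℕ, (k : ZMod p) * a + c ≠ 0 ∧ v (x ((k : ZMod p) * a + c)) < 1 := by
      intro k
      induction k with
      | zero => simpa using ⟨hc, hvc⟩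
      | succ k ih =>
        have h3 := step_sum hb t hx ha ih.1 hva ih.2
        have e : ((k + 1 : ℕ) : ZMod p) * a + c = a + ((k : ZMod p) * a + c) := by
          push_cast; ring
        rw [e]
        exact h3
    obtain ⟨k, hk⟩ := ZMod.natCast_zmod_surjective (-c / a)
    apply (key k).1
    rw [hk]
    field_simp
    ring
  · right
    push Not at hI
    have hu : ∀ c, c ≠ 0 → v (x c) = 1 := fun c hc => le_antisymm (hx c hc) (hI c hc)
    intro c hc
    refine ⟨hu c hc, ?_⟩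
    have h2c := two_mul_ne hp h5 hc
    have hd := congrArg v (t.dbl c hc)
    have hrhs : v (x c ^ 4 - 8 * b * x c - b) = 1 := by
      have h8 : v (8 * b * x c) < 1 := by
        rw [map_mul, map_mul, hu c hc, mul_one]
        exact (mul_le_of_le_one_left' (v_ofNat v 8)).trans_lt hb
      have h9 : v (x c ^ 4) = 1 := by rw [map_pow, hu c hc, one_pow]
      have h10 : v (x c ^ 4 - 8 * b * x c) = 1 := by
        rw [Valuation.map_sub_eq_of_lt_left, h9]
        rwa [h9]
      rw [Valuation.map_sub_eq_of_lt_left, h10]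
      rwa [h10]
    rw [hrhs, map_mul, hu _ h2c, one_mul] at hd
    exact hd

/-- the doubling in the second type, part (a) -/
lemma t2a (hp : p.Prime) (h5 : 5 ≤ p) (t : Tz p b x)
    (hb0 : b ≠ 0) (hb : v b < 1) (hx : ∀ c, c ≠ 0 → v (x c) < 1) {c : ZMod p} (hc : c ≠ 0) :
    v b < v (x c) ^ 2 := by
  by_contra hcon
  push Not at hcon
  set X := x c with hX
  have hβ : 0 < v b := zero_lt_iff.mpr ((v.ne_zero_iff).mpr hb0)
  have hX1 := hx c hc
  rw [← hX] at hX1
  have h1 : v (X ^ 4 - 8 * b * X - b) = v b := by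
    have e : X ^ 4 - 8 * b * X - b = (X ^ 4 + -(8 * b * X)) + -b := by ring
    rw [e, Valuation.map_add_eq_of_lt_right]
    · rw [Valuation.map_neg]
    · rw [Valuation.map_neg]
      refine lt_add ?_ ?_
      · rw [map_pow]
        calc v X ^ 4 = v X ^ 2 * v X ^ 2 := by rw [← pow_add]
          _ ≤ v b * v b := mul_le_mul' hcon hcon
          _ < v b * 1 := by
            exact mul_lt_mul_of_pos_left hb hβ
          _ = v b := mul_one _
      · rw [Valuation.map_neg, map_mul, map_mul]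
        calc v 8 * v b * v X ≤ v b * v X := mul_le_mul_left (mul_le_of_le_one_left' (v_ofNat v 8)) _
          _ < v b * 1 := mul_lt_mul_of_pos_left hX1 hβ
          _ = v b := mul_one _
  have h2 : v (fz b X) ≤ v b := by
    unfold fz
    refine le_add (le_add ?_ ?_) ?_
    · rw [map_mul, map_pow]
      calc v 4 * v X ^ 3 ≤ v X ^ 3 := mul_le_of_le_one_left' (v_ofNat v 4)
        _ = v X ^ 2 * v X := pow_succ _ _
        _ ≤ v b * 1 := mul_le_mul' hcon hX1.le
        _ = v b := mul_one _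
    · rw [map_pow]
      exact hcon
    · rw [map_mul]
      exact mul_le_of_le_one_left' (v_ofNat v 4)
  have h3 := congrArg v (t.dbl c hc)
  rw [← hX, h1, map_mul] at h3
  have h4 : v (x (2 * c)) * v (fz b X) < v b := by
    calc v (x (2 * c)) * v (fz b X) ≤ v (x (2 * c)) * v b := mul_le_mul_right h2 _
      _ < 1 * v b := mul_lt_mul_of_pos_right (hx _ (two_mul_ne hp h5 hc)) hβ
      _ = v b := one_mul _
  rw [h3] at h4
  exact lt_irrefl _ h4

lemma t2x0 (hp : p.Prime) (h5 : 5 ≤ p) (t : Tz p b x)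
    (hb0 : b ≠ 0) (hb : v b < 1) (hx : ∀ c, c ≠ 0 → v (x c) < 1) {c : ZMod p} (hc : c ≠ 0) :
    0 < v (x c) := by
  have h := t2a hp h5 t hb0 hb hx hc
  have : v (x c) ≠ 0 := by
    intro h0
    rw [h0, zero_pow (by norm_num)] at h
    exact not_lt_zero h
  exact zero_lt_iff.mpr this

lemma t2f (hp : p.Prime) (h5 : 5 ≤ p) (t : Tz p b x)
    (hb0 : b ≠ 0) (hb : v b < 1) (hx : ∀ c, c ≠ 0 → v (x c) < 1) {c : ZMod p} (hc : c ≠ 0) :
    v (fz b (x c)) = v (x c) ^ 2 := by
  have h := t2a hp h5 t hb0 hb hx hc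
  have h0 := t2x0 hp h5 t hb0 hb hx hc
  have h1 := hx c hc
  have e : fz b (x c) = x c ^ 2 + (4 * x c ^ 3 + 4 * b) := by unfold fz; ring
  have e2 : v (x c ^ 2) = v (x c) ^ 2 := map_pow _ _ _
  rw [e, Valuation.map_add_eq_of_lt_left, e2]
  rw [e2]
  refine lt_add ?_ ?_
  · rw [map_mul, map_pow]
    refine (mul_le_of_le_one_left' (v_ofNat v 4)).trans_lt ?_
    rw [pow_succ]
    calc v (x c) ^ 2 * v (x c) < v (x c) ^ 2 * 1 := mul_lt_mul_of_pos_left h1 (pow_pos h0 2)
      _ = v (x c) ^ 2 := mul_one _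
  · rw [map_mul]
    exact (mul_le_of_le_one_left' (v_ofNat v 4)).trans_lt h

/-- the doubling in the second type, part (b) -/
lemma t2b (hp : p.Prime) (h5 : 5 ≤ p) (t : Tz p b x)
    (hb0 : b ≠ 0) (hb : v b < 1) (hx : ∀ c, c ≠ 0 → v (x c) < 1) {c : ZMod p} (hc : c ≠ 0) :
    (v b < v (x c) ^ 4 ∧ v (x (2 * c)) = v (x c) ^ 2) ∨
    (v (x c) ^ 4 < v b ∧ v (x (2 * c)) * v (x c) ^ 2 = v b) := by
  have h := t2a hp h5 t hb0 hb hx hc
  have h0 := t2x0 hp h5 t hb0 hb hx hc
  have h1 := hx c hc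
  have hβ : 0 < v b := zero_lt_iff.mpr ((v.ne_zero_iff).mpr hb0)
  have h3 := congrArg v (t.dbl c hc)
  rw [map_mul, t2f hp h5 t hb0 hb hx hc] at h3
  have e1 : v (8 * b * x c) < v b := by
    rw [map_mul, map_mul]
    calc v 8 * v b * v (x c) ≤ v b * v (x c) :=
          mul_le_mul_left (mul_le_of_le_one_left' (v_ofNat v 8)) _
      _ < v b * 1 := mul_lt_mul_of_pos_left h1 hβ
      _ = v b := mul_one _
  have e3 : v (8 * b * x c + b) = v b := Valuation.map_add_eq_of_lt_right _ e1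
  have e4 : x c ^ 4 - 8 * b * x c - b = x c ^ 4 + -(8 * b * x c + b) := by ring
  rw [e4] at h3
  rcases lt_trichotomy (v b) (v (x c) ^ 4) with h4 | h4 | h4
  · left
    refine ⟨h4, ?_⟩
    rw [Valuation.map_add_eq_of_lt_left, map_pow] at h3
    · have e5 : v (x c) ^ 4 = v (x c) ^ 2 * v (x c) ^ 2 := by rw [← pow_add]
      rw [e5] at h3
      exact mul_right_cancel₀ (pow_ne_zero 2 h0.ne') h3
    · rw [Valuation.map_neg, e3, map_pow]; exact h4
  · exfalso
    have h5' : v (x (2 * c)) * v (x c) ^ 2 ≤ v (x c) ^ 2 * v (x c) ^ 2 := by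
      rw [h3]
      refine le_add ?_ ?_
      · rw [map_pow, ← pow_add]
      · rw [Valuation.map_neg, e3, h4, ← pow_add]
    have h6 : v (x (2 * c)) ≤ v (x c) ^ 2 := le_of_mul_le_mul_right h5' (pow_pos h0 2)
    have h7 := t2a hp h5 t hb0 hb hx (two_mul_ne hp h5 hc)
    have h8 : v (x (2 * c)) ^ 2 ≤ v (x c) ^ 4 := by
      calc v (x (2 * c)) ^ 2 ≤ (v (x c) ^ 2) ^ 2 := pow_le_pow_left' h6 2
        _ = v (x c) ^ 4 := by rw [← pow_mul]
    rw [← h4] at h8
    exact absurd h7 (not_lt.mpr h8)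
  · right
    refine ⟨h4, ?_⟩
    rw [Valuation.map_add_eq_of_lt_right, Valuation.map_neg, e3] at h3
    · exact h3
    · rw [Valuation.map_neg, e3, map_pow]; exact h4

/-- the differences in the second type, part (c) -/
lemma t2c (hp : p.Prime) (h5 : 5 ≤ p) (t : Tz p b x)
    (hb0 : b ≠ 0) (hb : v b < 1) (hx : ∀ c, c ≠ 0 → v (x c) < 1) {a c : ZMod p} (ha : a ≠ 0)
    (hc : c ≠ 0) (hac : a ≠ c) (hac' : a ≠ -c) :
    v (x a - x c) = max (v (x a)) (v (x c)) := by
  rcases lt_trichotomy (v (x a)) (v (x c)) with h | h | h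
  · rw [Valuation.map_sub_eq_of_lt_right _ h, max_eq_right h.le]
  · by_contra hne
    have hle : v (x a - x c) ≤ v (x a) := by
      refine (v.map_sub _ _).trans ?_
      rw [h, max_self]
    rw [h, max_self, ← h] at hne
    have hlt : v (x a - x c) < v (x a) := lt_of_le_of_ne hle hne
    have ha0 := t2x0 hp h5 t hb0 hb hx ha
    have ha1 := hx a ha
    have h1 := congrArg v (t.sum a c ha hc hac hac')
    have e1 : v (x a * x c * (1 + 2 * x a + 2 * x c) + 4 * b) = v (x a) ^ 2 := by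
      have e2 : v (1 + 2 * x a + 2 * x c) = 1 := by
        have e : (1 : K) + 2 * x a + 2 * x c = 1 - (-(2 * x a + 2 * x c)) := by ring
        rw [e]
        apply v_one_sub
        rw [Valuation.map_neg]
        refine lt_add ?_ ?_
        · rw [map_mul]
          exact (mul_le_of_le_one_left' (v_ofNat v 2)).trans_lt ha1
        · rw [map_mul]
          exact (mul_le_of_le_one_left' (v_ofNat v 2)).trans_lt (hx c hc)
      have e3 : v (x a * x c * (1 + 2 * x a + 2 * x c)) = v (x a) ^ 2 := by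
        rw [map_mul, e2, map_mul, mul_one, ← h, sq]
      rw [Valuation.map_add_eq_of_lt_left, e3]
      rw [e3, map_mul]
      exact (mul_le_of_le_one_left' (v_ofNat v 4)).trans_lt (t2a hp h5 t hb0 hb hx ha)
    rw [e1, map_mul, map_pow] at h1
    have h2 : v (x (a + c) + x (a - c)) ≤ 1 :=
      le_add (hx _ (add_ne_of hac')).le (hx _ (sub_ne_zero.mpr hac)).le
    have h3 : v (x (a + c) + x (a - c)) * v (x a - x c) ^ 2 < v (x a) ^ 2 := by
      calc v (x (a + c) + x (a - c)) * v (x a - x c) ^ 2 ≤ 1 * v (x a - x c) ^ 2 :=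
            mul_le_mul_left h2 _
        _ = v (x a - x c) ^ 2 := one_mul _
        _ < v (x a) ^ 2 := pow_lt_pow_left₀ hlt zero_le (by norm_num)
    rw [h1] at h3
    exact lt_irrefl _ h3
  · rw [Valuation.map_sub_eq_of_lt_left _ h, max_eq_left h.le]

/-- the pair identity -/
lemma pair_id (t : Tz p b x) {a c : ZMod p} (ha : a ≠ 0)
    (hc : c ≠ 0) (hac : a ≠ c) (hac' : a ≠ -c) :
    ((x (2 * a) - x (2 * c)) * (fz b (x a) * fz b (x c))) ^ 2 =
      fz b (x (a + c)) * fz b (x (a - c)) * (x a - x c) ^ 8 := by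
  have d1 := t.dbl a ha
  have d2 := t.dbl c hc
  have s := t.sum a c ha hc hac hac'
  have q := t.prod a c ha hc hac hac'
  generalize x (a + c) = u at *
  generalize x (a - c) = w at *
  generalize x (2 * a) = X2 at *
  generalize x (2 * c) = Y2 at *
  generalize x a = X at *
  generalize x c = Y at *
  have e1 : ((X2 - Y2) * (fz b X * fz b Y)) ^ 2 =
      ((X2 * fz b X) * fz b Y - (Y2 * fz b Y) * fz b X) ^ 2 := by ring
  rw [e1, d1, d2]
  set S := X * Y * (1 + 2 * X + 2 * Y) + 4 * b with hS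
  set Q := (X * Y) ^ 2 - 4 * b * (X + Y) - b with hQ
  set D := (X - Y) ^ 2 with hD
  have e2 : fz b u * fz b w * (X - Y) ^ 8 =
      D * (16 * (u * w * D) ^ 3 + 4 * (u * w * D) ^ 2 * ((u + w) * D) + (u * w * D) ^ 2 * D +
        16 * b * (((u + w) * D) ^ 3 - 3 * (u * w * D) * ((u + w) * D) * D) +
        4 * b * (((u + w) * D) ^ 2 - 2 * (u * w * D) * D) * D + 16 * b ^ 2 * D ^ 3) := by
    rw [hD]
    unfold fz
    ring
  rw [e2, q, s, hS, hQ, hD]
  unfold fz
  ring

end Pool.Agent.NK
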