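import Pool.Agent.Lib_helper99.NK.L
import Pool.Agent.Lib_helper99.TJG.D

/-!
# Two independent points of prime order cannot both be in the identity component
-/

set_option autoImplicit false
set_option linter.unusedSectionVars false

namespace Pool.Agent.NK

open WeierstrassCurve.Affine
open Pool.Agent.TJG

variable {k : Type*} [Field k] [DecidableEq k] [CharZero k] {W : WeierstrassCurve.Affine k}
  {K : Type*} [Field K] [CharZero K] [Algebra k K]

/-- the parametrisation of the multiples -/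
lemma exists_e {p : ℕ} (hp : p.Prime) (R : W.Point) (hR : R ≠ 0) (hpR : p • R = 0) :
    ∃ e : ZMod p ≃+ AddSubgroup.zmultiples R, ((e 1 : AddSubgroup.zmultiples R) : W.Point) = R := by
  have hpf : Fact p.Prime := ⟨hp⟩
  have hR' : (zmultiplesHom W.Point R) (p : ℤ) = 0 := by
    rw [zmultiplesHom_apply]
    exact_mod_cast hpR
  obtain ⟨f, hf⟩ : ∃ f : ZMod p →+ W.Point, f = ZMod.lift p ⟨zmultiplesHom W.Point R, hR'⟩ :=
    ⟨_, rfl⟩
  have hf1 : f 1 = R := by
    have := ZMod.lift_coe p ⟨zmultiplesHom W.Point R, hR'⟩ 1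
    rw [← hf] at this
    simpa using this
  have hfn : ∀ n : ℕ, f n = n • R := by
    intro n
    have : (n : ZMod p) = n • (1 : ZMod p) := by simp
    rw [this, map_nsmul, hf1]
  have hinj : Function.Injective f := by
    rw [injective_iff_map_eq_zero]
    intro c hc
    by_contra h0
    apply hR
    have h1 : f (c⁻¹ * c) = 0 := by
      have h2 : c⁻¹ * c = (c⁻¹).val • c := by
        rw [nsmul_eq_mul, ZMod.natCast_zmod_val]
      rw [h2, map_nsmul, hc, smul_zero]
    rw [inv_mul_cancel₀ h0, hf1] at h1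
    exact h1
  have hran : f.range = AddSubgroup.zmultiples R := by
    apply le_antisymm
    · rintro _ ⟨c, rfl⟩
      have : c = ((c.val : ℕ) : ZMod p) := (ZMod.natCast_zmod_val c).symm
      rw [this, hfn]
      exact AddSubgroup.nsmul_mem_zmultiples R _
    · rw [AddSubgroup.zmultiples_le]
      exact ⟨1, hf1⟩
  refine ⟨(AddMonoidHom.ofInjective hinj).trans (AddEquiv.addSubgroupCongr hran), ?_⟩
  show f 1 = R
  exact hf1

lemma e_val {p : ℕ} [NeZero p] {H : AddSubgroup W.Point} (e : ZMod p ≃+ H) (c : ZMod p) :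
    ((e c : H) : W.Point) = c.val • ((e 1 : H) : W.Point) := by
  have h : c = c.val • (1 : ZMod p) := by simp
  conv_lhs => rw [h]
  rw [map_nsmul]
  rfl

/-- the abscissae -/
noncomputable def zc {p : ℕ} {H : AddSubgroup W.Point} (e : ZMod p ≃+ H) (r A : K)
    (c : ZMod p) : K := xc e r A c / 4

lemma tz_zc {p : ℕ} [NeZero p] {H : AddSubgroup W.Point} (e : ZMod p ≃+ H) {r A B : K}
    (D : Dat W r A B) (hp : p.Prime) (h5 : 5 ≤ p) : Tz p (B / 64) (zc e r A) :=
  tz_of (tor_of e D hp h5)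

/-- a point whose order is a unit is integral -/
lemma int_pt {p : ℕ} (hp : p.Prime) (h5 : 5 ≤ p) {r A B : K} (D : Dat W r A B)
    {O : ValuationSubring K} (hvp : O.valuation (p : K) = 1) (hB : O.valuation (B / 64) ≤ 1)
    (R : W.Point) (hR : R ≠ 0) (hpR : p • R = 0) : O.valuation (nx r A R / 4) ≤ 1 := by
  have hpf : Fact p.Prime := ⟨hp⟩
  have hne : NeZero p := ⟨hp.ne_zero⟩
  obtain ⟨e, he⟩ := exists_e hp R hR hpR
  have := int hp h5 hvp hB (tz_zc e D hp h5) (c := 1) one_ne_zero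
  unfold zc xc at this
  rwa [he] at this

/-- **the second type occurs** -/
theorem two_points [IsAlgClosed K] {p : ℕ} [NeZero p] (hp : p.Prime) (h5 : 5 ≤ p) {r A B : K}
    (D : Dat W r A B)
    {O : ValuationSubring K} (hvp : O.valuation (p : K) = 1)
    (hB : O.valuation (B / 64) < 1) (P Q : W.Point) (hpP : p • P = 0) (hpQ : p • Q = 0)
    (hQ : Q ∉ AddSubgroup.zmultiples P) (eP : ZMod p ≃+ AddSubgroup.zmultiples P)
    (heP : ((eP 1 : AddSubgroup.zmultiples P) : W.Point) = P)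
    (eQ : ZMod p ≃+ AddSubgroup.zmultiples Q)
    (heQ : ((eQ 1 : AddSubgroup.zmultiples Q) : W.Point) = Q) :
    (∀ c, c ≠ 0 → O.valuation (zc eP r A c) < 1) ∨ ∀ c, c ≠ 0 → O.valuation (zc eQ r A c) < 1 := by
  have hpf : Fact p.Prime := ⟨hp⟩
  have tP := tz_zc eP D hp h5
  have tQ := tz_zc eQ D hp h5
  rcases all_or_none hp h5 hB tP (fun c hc => int hp h5 hvp hB.le tP hc) with h | hPu
  · exact Or.inl h
  rcases all_or_none hp h5 hB tQ (fun c hc => int hp h5 hvp hB.le tQ hc) with h | hQu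
  · exact Or.inr h
  exfalso
  obtain ⟨z, hz, hzP⟩ := root hp h5 tP hB (fun c hc => (hPu c hc).1)
  obtain ⟨w, hw, hwQ⟩ := root hp h5 tQ hB (fun c hc => (hQu c hc).1)
  obtain ⟨m, hmp, hm⟩ := hz.eq_pow_of_pow_eq_one hw.pow_eq_one
  have hm0 : m ≠ 0 := by
    rintro rfl
    rw [pow_zero] at hm
    exact hw.ne_one (by have := hp.two_le; omega) hm.symm
  have hmc : ((m : ℕ) : ZMod p) ≠ 0 := nat_ne (by omega) hmp
  -- the two abscissae are close
  have h1 := hwQ 1 one_ne_zero
  have h3 := hzP (m : ZMod p) hmc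
  rw [ZMod.val_cast_of_lt hmp, hm] at h3
  rw [ZMod.val_one'' (by have := hp.two_le; omega), pow_one] at h1
  obtain ⟨R, hR⟩ : ∃ R : W.Point, R = ((eP (m : ZMod p) : AddSubgroup.zmultiples P) : W.Point) :=
    ⟨_, rfl⟩
  have hRmem : R ∈ AddSubgroup.zmultiples P := by rw [hR]; exact (eP (m : ZMod p)).2
  have hR0 : R ≠ 0 := by rw [hR]; exact e_ne eP hmc
  have hQ0 : Q ≠ 0 := by
    rintro rfl
    exact hQ (AddSubgroup.zero_mem _)
  have hpR : p • R = 0 := by
    rw [hR, e_val, heP, smul_smul, mul_comm, mul_smul, hpP, smul_zero]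
  have hxR : zc eP r A (m : ZMod p) = nx r A R / 4 := by rw [hR]; rfl
  have hxQ : zc eQ r A 1 = nx r A Q / 4 := by
    unfold zc xc
    rw [heQ]
  have hRu : O.valuation (nx r A R / 4) = 1 := by rw [← hxR]; exact (hPu _ hmc).1
  have hRf : O.valuation (fz (B / 64) (nx r A R / 4)) = 1 := by
    rw [← hxR]
    exact (hPu _ hmc).2
  rw [hxQ] at h1
  rw [hxR] at h3
  have hd : O.valuation (nx r A Q / 4 - nx r A R / 4) < 1 := by
    have e : nx r A Q / 4 - nx r A R / 4 = (nx r A Q / 4 - w / (w - 1) ^ 2) -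
        (nx r A R / 4 - w / (w - 1) ^ 2) := by ring
    rw [e]
    exact lt_sub h1 h3
  have hxx : xx Q ≠ xx R := by
    intro h
    rcases eq_or_of_xx Q R hQ0 hR0 h with h4 | h4
    · exact hQ (h4 ▸ hRmem)
    · exact hQ (h4 ▸ AddSubgroup.neg_mem _ hRmem)
  have hs : (nx r A (Q + R) / 4 + nx r A (Q - R) / 4) * (nx r A Q / 4 - nx r A R / 4) ^ 2 =
      nx r A Q / 4 * (nx r A R / 4) * (1 + 2 * (nx r A Q / 4) + 2 * (nx r A R / 4)) +
        4 * (B / 64) := by
    linear_combination nx_sum D Q R hQ0 hR0 hxx / 64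
  have hi1 : O.valuation (nx r A (Q + R) / 4) ≤ 1 := by
    refine int_pt hp h5 D hvp hB.le _ ?_ (by rw [smul_add, hpQ, hpR, add_zero])
    intro h
    apply hxx
    rw [eq_neg_of_add_eq_zero_left h, xx_neg]
  have hi2 : O.valuation (nx r A (Q - R) / 4) ≤ 1 := by
    refine int_pt hp h5 D hvp hB.le _ ?_ (by rw [smul_sub, hpQ, hpR, sub_zero])
    intro h
    apply hxx
    rw [sub_eq_zero.mp h]
  have hl : O.valuation ((nx r A (Q + R) / 4 + nx r A (Q - R) / 4) *
      (nx r A Q / 4 - nx r A R / 4) ^ 2) < 1 := by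
    rw [map_mul, map_pow]
    refine lt_of_le_of_lt (mul_le_of_le_one_left' (le_add hi1 hi2)) ?_
    exact pow_lt_one₀ zero_le hd (by norm_num)
  have hr : O.valuation (nx r A Q / 4 * (nx r A R / 4) *
      (1 + 2 * (nx r A Q / 4) + 2 * (nx r A R / 4)) + 4 * (B / 64)) = 1 := by
    generalize nx r A Q / 4 = X at *
    generalize nx r A R / 4 = Y at *
    generalize B / 64 = b at *
    have e : X * Y * (1 + 2 * X + 2 * Y) + 4 * b = fz b Y + (X - Y) * (Y * (1 + 2 * X + 4 * Y)) := by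
      unfold fz
      ring
    have hX : O.valuation X ≤ 1 := by
      have : X = (X - Y) + Y := by ring
      rw [this]
      exact le_add hd.le hRu.le
    rw [e, Valuation.map_add_eq_of_lt_left, hRf]
    rw [hRf, map_mul]
    refine lt_of_le_of_lt (mul_le_of_le_one_right' ?_) hd
    rw [map_mul, hRu, one_mul]
    refine le_add (le_add (by rw [map_one]) ?_) ?_
    · rw [map_mul]
      exact mul_le_one' (v_ofNat O.valuation 2) hX
    · rw [map_mul]
      exact mul_le_one' (v_ofNat O.valuation 4) hRu.le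
  rw [hs, hr] at hl
  exact lt_irrefl _ hl

end Pool.Agent.NK
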