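import Pool.Agent.Lib_helper99.NK.P

/-!
# The valuations of the abscissae in the second type
-/

set_option autoImplicit false
set_option linter.unusedSectionVars false

namespace Pool.Agent.NK

variable {K : Type*} [Field K] {G : Type*} [LinearOrderedCommGroupWithZero G] {v : Valuation K G}
  {p : ℕ} {B : K} {x : ZMod p → K}

/-- the smallest one -/
lemma exists_b [NeZero p] (hp : p.Prime) (h5 : 5 ≤ p) (t : Tz p B x)
    (hB0 : B ≠ 0) (hB : v B < 1) (hx : ∀ c, c ≠ 0 → v (x c) < 1) :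
    ∃ b : ZMod p, b ≠ 0 ∧ v (x (2 * b)) * v (x b) ^ 2 = v B ∧
      ∀ c, c ≠ 0 → c ≠ b → c ≠ -b →
        v (x (b + c)) * v (x (b - c)) * v (x c) ^ 2 = v B := by
  have hpf := Fact.mk hp
  have hβ : 0 < v B := zero_lt_iff.mpr ((v.ne_zero_iff).mpr hB0)
  have hpos : ∀ c, c ≠ 0 → 0 < v (x c) := fun c hc => t2x0 hp h5 t hB0 hB hx hc
  have hne : (Finset.univ.erase (0 : ZMod p)).Nonempty :=
    ⟨1, Finset.mem_erase.mpr ⟨one_ne_zero, Finset.mem_univ _⟩⟩
  obtain ⟨b, hbm, hmin⟩ := Finset.exists_min_image _ (fun c => v (x c)) hne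
  have hb : b ≠ 0 := (Finset.mem_erase.mp hbm).1
  have hmin : ∀ c, c ≠ 0 → v (x b) ≤ v (x c) := fun c hc =>
    hmin c (Finset.mem_erase.mpr ⟨hc, Finset.mem_univ _⟩)
  have hsq : ∀ c, c ≠ 0 → v (x c) ^ 2 < v (x c) := by
    intro c hc
    rw [sq]
    calc v (x c) * v (x c) < v (x c) * 1 := mul_lt_mul_of_pos_left (hx c hc) (hpos c hc)
      _ = v (x c) := mul_one _
  have h2b : v (x (2 * b)) * v (x b) ^ 2 = v B := by
    rcases t2b hp h5 t hB0 hB hx hb with ⟨-, h⟩ | ⟨-, h⟩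
    · exfalso
      have := hmin _ (two_mul_ne hp h5 hb)
      rw [h] at this
      exact absurd (hsq b hb) (not_lt.mpr this)
    · exact h
  have hmax : ∀ c, c ≠ 0 → v (x c) ≤ v (x (2 * b)) := by
    obtain ⟨e, hem, hemax⟩ := Finset.exists_max_image _ (fun c => v (x c)) hne
    have he : e ≠ 0 := (Finset.mem_erase.mp hem).1
    have h2 : (2 : ZMod p) ≠ 0 := by
      have := two_mul_ne hp h5 (c := 1) one_ne_zero
      rwa [mul_one] at this
    obtain ⟨e', he'⟩ : ∃ e', e = 2 * e' := ⟨2⁻¹ * e, by rw [mul_inv_cancel_left₀ h2]⟩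
    have he0 : e' ≠ 0 := by
      rintro rfl
      exact he (by rw [he', mul_zero])
    have h3 : v (x e) ≤ v (x (2 * b)) := by
      rcases t2b hp h5 t hB0 hB hx he0 with ⟨-, h⟩ | ⟨-, h⟩
      · exfalso
        rw [← he'] at h
        have := hemax e' (Finset.mem_erase.mpr ⟨he0, Finset.mem_univ _⟩)
        rw [h] at this
        exact absurd (hsq e' he0) (not_lt.mpr this)
      · rw [← he', ← h2b] at h
        have h4 : v (x e) * v (x e') ^ 2 ≤ v (x (2 * b)) * v (x e') ^ 2 := by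
          rw [h]
          exact mul_le_mul_right (pow_le_pow_left' (hmin e' he0) 2) _
        exact le_of_mul_le_mul_right h4 (pow_pos (hpos e' he0) 2)
    intro c hc
    exact (hemax c (Finset.mem_erase.mpr ⟨hc, Finset.mem_univ _⟩)).trans h3
  refine ⟨b, hb, h2b, fun c hc c2 c1 => ?_⟩
  have hbc : b ≠ c := fun e => c2 e.symm
  have hbc' : b ≠ -c := fun e => c1 (by rw [e, neg_neg])
  have f1 : 2 * b ≠ 2 * c := fun e => two_mul_ne hp h5 (sub_ne_zero.mpr hbc)
    (by rw [mul_sub, e, sub_self])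
  have f2 : 2 * b ≠ -(2 * c) := fun e => two_mul_ne hp h5 (add_ne_of hbc')
    (by rw [mul_add, e, neg_add_cancel])
  have g1 := t2c hp h5 t hB0 hB hx (two_mul_ne hp h5 hb) (two_mul_ne hp h5 hc) f1 f2
  rw [max_eq_left (hmax _ (two_mul_ne hp h5 hc))] at g1
  have g2 := t2c hp h5 t hB0 hB hx hb hc hbc hbc'
  rw [max_eq_right (hmin c hc)] at g2
  have h := congrArg v (pair_id t hb hc hbc hbc')
  rw [map_pow, map_mul, map_mul, map_mul, map_mul, map_pow, g1, g2,
    t2f hp h5 t hB0 hB hx hb, t2f hp h5 t hB0 hB hx hc,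
    t2f hp h5 t hB0 hB hx (add_ne_of hbc'),
    t2f hp h5 t hB0 hB hx (sub_ne_zero.mpr hbc)] at h
  have h' : (v (x (2 * b)) * (v (x b) ^ 2 * v (x c) ^ 2)) ^ 2 =
      (v (x (b + c)) * v (x (b - c)) * v (x c) ^ 2 * v (x c) ^ 2) ^ 2 := by
    rw [h]
    have : v (x c) ^ 8 = (v (x c) ^ 2 * v (x c) ^ 2) ^ 2 := by rw [← pow_add, ← pow_mul]
    rw [this, mul_assoc (v (x (b + c)) * v (x (b - c))), mul_pow (v (x (b + c)) * v (x (b - c))),
      mul_pow (v (x (b + c)))]
  have h3 := (pow_left_inj₀ zero_le zero_le two_ne_zero).mp h'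
  rw [← mul_assoc, h2b] at h3
  exact (mul_right_cancel₀ (pow_ne_zero 2 (hpos c hc).ne') h3).symm

/-- **the valuations are linear** -/
theorem linear [NeZero p] (hp : p.Prime) (h5 : 5 ≤ p) (t : Tz p B x)
    (hB0 : B ≠ 0) (hB : v B < 1) (hx : ∀ c, c ≠ 0 → v (x c) < 1) :
    ∃ a : ZMod p, a ≠ 0 ∧ v (x a) ^ p = v B ∧
      ∀ n : ℕ, 1 ≤ n → 2 * n < p → v (x ((n : ZMod p) * a)) = v (x a) ^ n := by
  have hpf := Fact.mk hp
  have hpos : ∀ c, c ≠ 0 → 0 < v (x c) := fun c hc => t2x0 hp h5 t hB0 hB hx hc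
  obtain ⟨b, hb, h2b, hpair⟩ := exists_b hp h5 t hB0 hB hx
  obtain ⟨N, hN⟩ : ∃ N, p = 2 * N + 1 := by
    rcases hp.eq_two_or_odd with h | h
    · omega
    · exact ⟨p / 2, by omega⟩
  obtain ⟨a, ha⟩ : ∃ a : ZMod p, a = 2 * b := ⟨_, rfl⟩
  have ha0 : a ≠ 0 := by rw [ha]; exact two_mul_ne hp h5 hb
  have hz : (2 : ZMod p) * (N : ZMod p) + 1 = 0 := by
    have : ((2 * N + 1 : ℕ) : ZMod p) = 0 := by rw [← hN]; exact ZMod.natCast_self _
    push_cast at this
    exact this
  have hba : b = -((N : ZMod p) * a) := by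
    rw [ha]
    linear_combination b * hz
  obtain ⟨g, hg⟩ : ∃ g : ℕ → G, ∀ n, g n = if n = 0 then 1 else v (x ((n : ZMod p) * a)) :=
    ⟨_, fun _ => rfl⟩
  have g0 : g 0 = 1 := by rw [hg, if_pos rfl]
  have gn : ∀ n, 1 ≤ n → g n = v (x ((n : ZMod p) * a)) := fun n hn => by
    rw [hg, if_neg (by omega)]
  have gpos : ∀ n, n < p → 0 < g n := by
    intro n hn
    rcases Nat.eq_zero_or_pos n with rfl | h
    · rw [g0]; exact zero_lt_one
    · rw [gn n h]
      exact hpos _ (mul_ne_zero (nat_ne h hn) ha0)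
  have E : ∀ n, 1 ≤ n → n ≤ N → g (N - n) * g (N + 1 - n) * g n ^ 2 = v B := by
    intro n h1 h2
    rcases Nat.eq_or_lt_of_le h2 with rfl | h3
    · rw [Nat.sub_self, g0, one_mul, show n + 1 - n = 1 by omega, gn 1 le_rfl, gn n h1, ← h2b,
        Nat.cast_one, one_mul, ← ha]
      congr 2
      rw [hba, t.even]
    · have hn0 : ((n : ℕ) : ZMod p) * a ≠ 0 := mul_ne_zero (nat_ne h1 (by omega)) ha0
      have c1 : ((n : ℕ) : ZMod p) * a ≠ b := by
        intro h
        rw [hba] at h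
        have h4 : ((N + n : ℕ) : ZMod p) * a = 0 := by
          push_cast
          linear_combination h
        exact mul_ne_zero (nat_ne (by omega) (by omega)) ha0 h4
      have c2 : ((n : ℕ) : ZMod p) * a ≠ -b := by
        intro h
        rw [hba, neg_neg] at h
        have h4 : ((N - n : ℕ) : ZMod p) * a = 0 := by
          rw [Nat.cast_sub h2]
          linear_combination -h
        exact mul_ne_zero (nat_ne (by omega) (by omega)) ha0 h4
      have h := hpair _ hn0 c1 c2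
      have e1 : b + ((n : ℕ) : ZMod p) * a = -(((N - n : ℕ) : ZMod p) * a) := by
        rw [hba, Nat.cast_sub h2]
        ring
      have e2 : b - ((n : ℕ) : ZMod p) * a = ((N + 1 - n : ℕ) : ZMod p) * a := by
        rw [hba, Nat.cast_sub (by omega)]
        push_cast
        linear_combination -a * hz
      rw [e1, e2, t.even] at h
      rw [gn (N - n) (by omega), gn (N + 1 - n) (by omega), gn n h1]
      exact h
  have L : ∀ n, 1 ≤ n → n < N → g (n + 1) * g (n - 1) = g n ^ 2 := by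
    intro n h1 h2
    have i1 := E n h1 h2.le
    have i2 := E (N - n) (by omega) (by omega)
    have i3 := E (N + 1 - n) (by omega) (by omega)
    rw [show N - (N - n) = n by omega, show N + 1 - (N - n) = n + 1 by omega] at i2
    rw [show N - (N + 1 - n) = n - 1 by omega, show N + 1 - (N + 1 - n) = n by omega] at i3
    have hu := gpos (N - n) (by omega)
    have hw := gpos (N + 1 - n) (by omega)
    have hn := gpos n (by omega)
    have h : g n ^ 2 * (g (N - n) ^ 2 * g (N + 1 - n) ^ 2) * (g (n + 1) * g (n - 1)) =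
        g n ^ 2 * (g (N - n) ^ 2 * g (N + 1 - n) ^ 2) * g n ^ 2 := by
      have l : g n ^ 2 * (g (N - n) ^ 2 * g (N + 1 - n) ^ 2) * (g (n + 1) * g (n - 1)) =
          (g n * g (n + 1) * g (N - n) ^ 2) * (g (n - 1) * g n * g (N + 1 - n) ^ 2) := by
        rw [sq (g n)]
        ac_rfl
      have r : g n ^ 2 * (g (N - n) ^ 2 * g (N + 1 - n) ^ 2) * g n ^ 2 =
          (g (N - n) * g (N + 1 - n) * g n ^ 2) * (g (N - n) * g (N + 1 - n) * g n ^ 2) := by
        rw [sq (g (N - n)), sq (g (N + 1 - n))]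
        ac_rfl
      rw [l, r, i1, i2, i3]
    have h0 : g n ^ 2 * (g (N - n) ^ 2 * g (N + 1 - n) ^ 2) ≠ 0 :=
      mul_ne_zero (pow_ne_zero 2 hn.ne') (mul_ne_zero (pow_ne_zero 2 hu.ne') (pow_ne_zero 2 hw.ne'))
    exact mul_left_cancel₀ h0 h
  have P : ∀ n, n + 1 ≤ N → g n = g 1 ^ n ∧ g (n + 1) = g 1 ^ (n + 1) := by
    intro n
    induction n with
    | zero => intro _; exact ⟨by rw [g0, pow_zero], by rw [zero_add, pow_one]⟩
    | succ n ih =>
      intro h
      obtain ⟨i1, i2⟩ := ih (by omega)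
      refine ⟨i2, ?_⟩
      have := L (n + 1) (by omega) (by omega)
      rw [show n + 1 - 1 = n by omega, i1, i2] at this
      have h1 := gpos 1 (by omega)
      refine mul_right_cancel₀ (pow_ne_zero n h1.ne') (this.trans ?_)
      rw [← pow_mul, ← pow_add]
      congr 1
      omega
  have P' : ∀ n, n ≤ N → g n = g 1 ^ n := by
    intro n hn
    rcases Nat.eq_zero_or_pos n with rfl | h
    · rw [g0, pow_zero]
    · have := (P (n - 1) (by omega)).2
      rwa [show n - 1 + 1 = n by omega] at this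
  have g1 : g 1 = v (x a) := by rw [gn 1 le_rfl, Nat.cast_one, one_mul]
  refine ⟨a, ha0, ?_, fun n h1 h2 => ?_⟩
  · have := E N (by omega) le_rfl
    rw [Nat.sub_self, g0, one_mul, show N + 1 - N = 1 by omega, P' N le_rfl, ← pow_mul,
      ← pow_succ'] at this
    rw [← this, ← g1]
    congr 1
    omega
  · rw [← gn n h1, P' n (by omega), g1]

end Pool.Agent.NK
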