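import Pool.Agent.Lib_helper99.NK.V

/-!
# The valuations of the numbers `γ` in the second type
-/

set_option autoImplicit false
set_option linter.unusedSectionVars false

namespace Pool.Agent.NK

/-- the sum of the `min (m, p - m, k)` -/
lemma min_sum {p N : ℕ} (hN : p = 2 * N + 1) (k : ℕ) (hk : k ≤ N) :
    ∑ m ∈ Finset.range p, min (min m (p - m)) k = k * (p - k) := by
  induction k with
  | zero => simp
  | succ k ih =>
    have h1 : ∀ m ∈ Finset.range p, min (min m (p - m)) (k + 1) =
        min (min m (p - m)) k + if (k + 1 ≤ m ∧ m ≤ p - k - 1) then 1 else 0 := by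
      intro m hm
      rw [Finset.mem_range] at hm
      split_ifs with h
      · omega
      · omega
    rw [Finset.sum_congr rfl h1, Finset.sum_add_distrib, ih (by omega), ← Finset.sum_filter,
      Finset.sum_const, smul_eq_mul, mul_one]
    have h2 : (Finset.range p).filter (fun m => k + 1 ≤ m ∧ m ≤ p - k - 1) =
        Finset.Icc (k + 1) (p - k - 1) := by
      ext m
      simp only [Finset.mem_filter, Finset.mem_range, Finset.mem_Icc]
      omega
    rw [h2, Nat.card_Icc]
    obtain ⟨d, hd⟩ : ∃ d, p - k = d + 1 + k := ⟨p - k - 1 - k, by omega⟩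
    have h3 : p - (k + 1) = d + k := by omega
    have h4 : p - k - 1 + 1 - (k + 1) = d := by omega
    rw [h4, hd, h3]
    ring

/-- the distance to zero -/
def nu {p : ℕ} (s : ZMod p) : ℕ := min s.val (p - s.val)

variable {K : Type*} [Field K] {G : Type*} [LinearOrderedCommGroupWithZero G] {v : Valuation K G}
  {p : ℕ} {B : K} {x : ZMod p → K}

lemma nu_mul [NeZero p] (s : ZMod p) : nu s * (p - nu s) = s.val * (p - s.val) := by
  unfold nu
  have h := ZMod.val_lt s
  rcases le_total s.val (p - s.val) with h1 | h1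
  · rw [min_eq_left h1]
  · rw [min_eq_right h1, Nat.sub_sub_self h.le, mul_comm]

lemma val_x [NeZero p] (t : Tz p B x) {a : ZMod p}
    (hlin : ∀ n : ℕ, 1 ≤ n → 2 * n < p → v (x ((n : ZMod p) * a)) = v (x a) ^ n)
    (hodd : p % 2 = 1) {s : ZMod p} (hs : s ≠ 0) : v (x (s * a)) = v (x a) ^ nu s := by
  have h := ZMod.val_lt s
  have h0 : s.val ≠ 0 := fun h0 => hs ((ZMod.val_eq_zero s).mp h0)
  unfold nu
  rcases le_total s.val (p - s.val) with h1 | h1
  · rw [min_eq_left h1, ← hlin s.val (by omega) (by omega), ZMod.natCast_zmod_val]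
  · rw [min_eq_right h1, ← hlin (p - s.val) (by omega) (by omega)]
    have e : ((p - s.val : ℕ) : ZMod p) = -s := by
      rw [Nat.cast_sub h.le, ZMod.natCast_self, ZMod.natCast_zmod_val, zero_sub]
    rw [e, neg_mul, t.even]

/-- **the valuation of `γ`** -/
theorem val_gz [NeZero p] (hp : p.Prime) (h5 : 5 ≤ p) (t : Tz p B x)
    (hB0 : B ≠ 0) (hB : v B < 1) (hx : ∀ c, c ≠ 0 → v (x c) < 1) {a : ZMod p} (ha : a ≠ 0)
    (hlin : ∀ n : ℕ, 1 ≤ n → 2 * n < p → v (x ((n : ZMod p) * a)) = v (x a) ^ n)
    {s : ZMod p} (hs : s ≠ 0) : v (gz B x (s * a)) = v (x a) ^ (s.val * (p - s.val)) := by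
  have hpf := Fact.mk hp
  have hodd : p % 2 = 1 := by
    rcases hp.eq_two_or_odd with h | h
    · omega
    · exact h
  have hsa : s * a ≠ 0 := mul_ne_zero hs ha
  have hsn : s ≠ -s := by
    intro h
    have h2 : 2 * s = 0 := by linear_combination h
    exact two_mul_ne hp h5 hs h2
  have hb1 : v (x a) ≤ 1 := (hx a ha).le
  unfold gz
  rw [map_mul, t2f hp h5 t hB0 hB hx hsa,
    val_x t hlin hodd hs, map_prod, ← Equiv.prod_comp (Equiv.mulRight₀ a ha)]
  have h1 : ∀ r : ZMod p, v (if (Equiv.mulRight₀ a ha) r = 0 ∨ (Equiv.mulRight₀ a ha) r = s * a ∨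
      (Equiv.mulRight₀ a ha) r = -(s * a) then 1 else x (s * a) - x ((Equiv.mulRight₀ a ha) r)) *
      (if r = s ∨ r = -s then v (x a) ^ nu s else 1) =
      v (x a) ^ (min (nu r) (nu s)) := by
    intro r
    show v (if r * a = 0 ∨ r * a = s * a ∨ r * a = -(s * a) then 1 else x (s * a) - x (r * a)) * _
      = _
    have i1 : r * a = 0 ↔ r = 0 := by simp [ha]
    have i2 : r * a = s * a ↔ r = s := mul_left_inj' ha
    have i3 : r * a = -(s * a) ↔ r = -s := by rw [← neg_mul]; exact mul_left_inj' ha
    by_cases hr0 : r = 0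
    · rw [if_pos (Or.inl (i1.mpr hr0)), map_one, one_mul]
      have h2 : ¬ (r = s ∨ r = -s) := by
        rintro (h | h)
        · exact hs (h ▸ hr0)
        · apply hs
          rw [hr0] at h
          exact neg_eq_zero.mp h.symm
      rw [if_neg h2, hr0]
      have : nu (0 : ZMod p) = 0 := by unfold nu; simp
      rw [this, Nat.zero_min, pow_zero]
    by_cases hrs : r = s ∨ r = -s
    · rw [if_pos (Or.inr (hrs.imp i2.mpr i3.mpr)), map_one, one_mul, if_pos hrs]
      have : nu r = nu s := by
        rcases hrs with h | h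
        · rw [h]
        · rw [h]
          unfold nu
          rw [ZMod.neg_val, if_neg hs]
          have := ZMod.val_lt s
          omega
      rw [this, min_self]
    · have h2 : ¬ (r * a = 0 ∨ r * a = s * a ∨ r * a = -(s * a)) := by
        rintro (h | h)
        · exact hr0 (i1.mp h)
        · exact hrs (h.imp i2.mp i3.mp)
      rw [if_neg h2, if_neg hrs, mul_one]
      have hra : r * a ≠ 0 := mul_ne_zero hr0 ha
      have h3 : s * a ≠ r * a := fun h => hrs (Or.inl (i2.mp h.symm))
      have h4 : s * a ≠ -(r * a) := fun h => hrs (Or.inr (i3.mp (by rw [h, neg_neg])))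
      rw [t2c hp h5 t hB0 hB hx hsa hra h3 h4, val_x t hlin hodd hs, val_x t hlin hodd hr0]
      rcases le_total (nu r) (nu s) with h5 | h5
      · rw [min_eq_left h5, max_eq_right]
        exact pow_le_pow_of_le_one zero_le hb1 h5
      · rw [min_eq_right h5, max_eq_left]
        exact pow_le_pow_of_le_one zero_le hb1 h5
  have h2 : (∏ r : ZMod p, v (if (Equiv.mulRight₀ a ha) r = 0 ∨
      (Equiv.mulRight₀ a ha) r = s * a ∨
      (Equiv.mulRight₀ a ha) r = -(s * a) then 1 else x (s * a) - x ((Equiv.mulRight₀ a ha) r))) *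
      (∏ r : ZMod p, if r = s ∨ r = -s then v (x a) ^ nu s else 1) =
      v (x a) ^ (s.val * (p - s.val)) := by
    rw [← Finset.prod_mul_distrib, Finset.prod_congr rfl fun r _ => h1 r,
      Finset.prod_pow_eq_pow_sum]
    congr 1
    have h3 : ∑ r : ZMod p, min (nu r) (nu s) =
        ∑ m ∈ Finset.range p, min (min m (p - m)) (nu s) := by
      refine Finset.sum_nbij' (fun r => r.val) (fun m => (m : ZMod p)) ?_ ?_ ?_ ?_ ?_
      · intro r _
        exact Finset.mem_range.mpr (ZMod.val_lt r)
      · intro m _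
        exact Finset.mem_univ _
      · intro r _
        exact ZMod.natCast_zmod_val r
      · intro m hm
        exact ZMod.val_cast_of_lt (Finset.mem_range.mp hm)
      · intro r _
        rfl
    obtain ⟨N, hN⟩ : ∃ N, p = 2 * N + 1 := ⟨p / 2, by omega⟩
    rw [h3, min_sum hN _ _, nu_mul]
    unfold nu
    omega
  have h3 : (∏ r : ZMod p, if r = s ∨ r = -s then v (x a) ^ nu s else 1) =
      (v (x a) ^ nu s) ^ 2 := by
    rw [Finset.prod_ite, Finset.prod_const, Finset.prod_const_one, mul_one]
    congr 1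
    have h4 : (Finset.univ.filter fun r : ZMod p => r = s ∨ r = -s) = {s, -s} := by
      ext r; simp
    rw [h4, Finset.card_pair hsn]
  rw [h3] at h2
  rw [mul_comm]
  exact h2

end Pool.Agent.NK
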